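import Mathlib
import Pool.Agent.Helper69.DC.Defs
import Pool.Agent.Helper69.DC.Defs2

/-!
Definitions of the third stage: families of relations on all lines of a null hyperplane.
-/

namespace Pool.Agent.Helper66.DC

open MvPolynomial Finset ComplexConjugate Pool.Agent.Helper69.DC

/-- The coefficient of `t^i` of `h(x + t y)`, a polynomial in `x` (`Sum.inl`) and `y` (`Sum.inr`). -/
noncomputable def gam {ι : Type*} (h : MvPolynomial ι ℂ) (i : ℕ) : MvPolynomial (ι ⊕ ι) ℂ :=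
  (aeval (fun j => Polynomial.C (X (Sum.inl j)) + Polynomial.C (X (Sum.inr j)) * Polynomial.X) h :
    Polynomial (MvPolynomial (ι ⊕ ι) ℂ)).coeff i

/-- Specialisation `x = β`; `y` becomes the variable. -/
noncomputable def atx {m : ℕ} (β : Fin m → ℂ) :
    MvPolynomial (Fin m ⊕ Fin m) ℂ →ₐ[ℂ] MvPolynomial (Fin m) ℂ :=
  aeval (Sum.elim (fun i => C (β i)) X)

/-- `l` is a polynomial family of relations with `q` windows between the coefficients of
`g(x + t y)`. -/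
def Win {m N : ℕ} (g : Fin (N + 1) → MvPolynomial (Fin m) ℂ) (d q : ℕ)
    (l : ℕ → MvPolynomial (Fin m ⊕ Fin m) ℂ) : Prop :=
  ∀ s < q, ∀ k, ∑ i ∈ range (d + 1), l (i + s) * gam (g k) i = 0

/-- The vector `c(y) = ∑_(i<d) l_i(β, y) γ_(i+1)(β, y)`, `γ_i` the coefficients of `g(x + t y)`. -/
noncomputable def cf {m N : ℕ} (g : Fin (N + 1) → MvPolynomial (Fin m) ℂ) (β : Fin m → ℂ) (d : ℕ)
    (l : ℕ → MvPolynomial (Fin m ⊕ Fin m) ℂ) (k : Fin (N + 1)) : MvPolynomial (Fin m) ℂ :=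
  atx β (∑ i ∈ range d, l i * gam (g k) (i + 1))

/-- Value of a vector of polynomials. -/
noncomputable def ev {m N : ℕ} (c : Fin (N + 1) → MvPolynomial (Fin m) ℂ) (y : Fin m → ℂ) :
    Fin (N + 1) → ℂ := fun k => eval y (c k)

/-- The polynomial `⟨c(y), u⟩` (Hermitian form of signature `(1, N)`). Note
`hq f β b u = hfc (gp f β b) u`. -/
noncomputable def hfc {m N : ℕ} (c : Fin (N + 1) → MvPolynomial (Fin m) ℂ)
    (u : Fin (N + 1) → ℂ) : MvPolynomial (Fin m) ℂ :=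
  C (conj (u 0)) * c 0 - ∑ j : Fin N, C (conj (u j.succ)) * c j.succ

/-- The linear form `y ↦ ∑ y_i conj v_i`. -/
noncomputable def lf {m : ℕ} (v : Fin m → ℂ) : MvPolynomial (Fin m) ℂ :=
  ∑ i, C (conj (v i)) * X i

/-- A good direction `v` at the null point `(β, a)`, for `q` windows. -/
structure Good {m N : ℕ} (f : Fin (N + 1) → MvPolynomial (Fin m ⊕ Unit) ℂ) (d q : ℕ)
    (β : Fin m → ℂ) (a : ℂ) (v : Fin m → ℂ) : Prop where
  nz : ∀ t : ℂ, fv f (fun i => β i + t * v i) (a + t * ∑ i, v i * conj (β i)) ≠ 0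
  top : AJ f β a v d ≠ 0
  ext : ∀ κ : ℕ → ℂ, (∀ l < q, ∑ j ∈ range (d + 1), κ (j + l) • AJ f β a v j = 0) →
    ∃ l : ℕ → MvPolynomial (Fin m ⊕ Fin m) ℂ, Win (gp f β (conj a)) d q l ∧
      ∀ i < d + q, eval (Sum.elim β v) (l i) = κ i

/-- The second derivative of `P` at `v` in the directions `u`, `u'`. -/
noncomputable def d2 {m : ℕ} (u u' v : Fin m → ℂ) (P : MvPolynomial (Fin m) ℂ) : ℂ :=
  ∑ p, ∑ r, u p * u' r * eval v (pderiv p (pderiv r P))

/-- The second derivative of a vector of polynomials. -/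
noncomputable def d2v {m N : ℕ} (u u' v : Fin m → ℂ)
    (c : Fin (N + 1) → MvPolynomial (Fin m) ℂ) : Fin (N + 1) → ℂ := fun k => d2 u u' v (c k)

end Pool.Agent.Helper66.DC
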