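import Mathlib
import Pool.Agent.Helper28.Ball.Mono
import Pool.Agent.Helper69.DC.Defs
import Pool.Agent.Helper69.DC.Defs2
import Pool.Agent.Helper66.DC.Defs3

/-!
Goals (packets) of the third stage: the degree bound `(n-1)d ≤ a(N-1)` in a larger range and the sharp
bound for `N < C(n+2,3)`, `n ≥ 5`.
-/

namespace Pool.Agent.Helper66.DC

open MvPolynomial Finset ComplexConjugate Pool.Agent.Helper69.DC

/-- **J_RK** (kernel vectors of a matrix of polynomials extend, where the rank is maximal).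

PROOF. Let `r` be the maximal size of a nonzero minor of `M` (`r = 0`: `M = 0`; the empty minor is `1`), `W` such a
minor, with rows `R` and columns `C` (`|R| = |C| = r`), `A := M_(R,C)`, `W = det A`. For a column `c ∉ C` let
`K_c := W e_c - ∑_(c' ∈ C) (adj(A) M_(R,c))_(c') e_(c')`. Then `M K_c = 0`: for a row `i`,
`(M K_c)_i = W M_(i,c) - M_(i,C) adj(A) M_(R,c)` is (up to sign) the determinant of the matrix `A` bordered by the
row `i` and the column `c` (`Matrix.det_fromBlocks₁₁` over the fraction field, or expansion), which is `0`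
(a minor of size `r + 1`, or with two equal rows when `i ∈ R`). Let `W(x) ≠ 0`, `M(x) u = 0`. Put
`K := ∑_(c ∉ C) (u_c/W(x)) K_c` (constants `C (u_c / W(x))`). `M K = 0`, and `K(x) - u` is in the kernel of `M(x)` and
supported on `C`, so it is `0` as `A(x)` is invertible. (Any other proof is fine, e.g. over the fraction field
of `MvPolynomial σ ℂ`; only the existence of `W` matters.) -/
def J_RK : Prop :=
  ∀ (σ ρ κ : Type) [Fintype ρ] [Fintype κ] (M : ρ → κ → MvPolynomial σ ℂ),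
    ∃ W : MvPolynomial σ ℂ, W ≠ 0 ∧ ∀ x : σ → ℂ, eval x W ≠ 0 → ∀ u : κ → ℂ,
      (∀ r, ∑ c, eval x (M r c) * u c = 0) →
      ∃ K : κ → MvPolynomial σ ℂ, (∀ r, ∑ c, M r c * K c = 0) ∧ ∀ c, eval x (K c) = u c

/-- **J_GOODB** (a null point with an orthogonal basis of good directions). From `G_LD`, `G_BEZ`, `G_OB`
(`Pool/Agent/Helper69/DC/Goals.lean`; proved in `Helper5/DC/LD.lean`, `Helper64/DC/BEZ.lean`,
`Helper91/DC/OB.lean`) and `J_RK`. See `Pool/Agent/Helper8/DC/GOOD.lean` and `Pool/Agent/Helper99/DC/GOODW.lean` for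
very similar statements.

PROOF. `ι := Fin m ⊕ Unit`, `σ := ι ⊕ ι` (a point `x` and a direction `y` of `ℂ^(m+1)`). Polynomials on `σ`:
`D(x,y)` from `G_BEZ`; `H(y)` := homogeneous component of degree `d` of `f k₁`, `k₁` with
`totalDegree (f k₁) = d`; `F(x) := f k₂ ≠ 0`; `W_R(x,y)` from `J_RK` for the matrix with rows
`(s,k) ∈ Fin q × Fin (N+1)`, columns `c ∈ Fin (d+q)`, entries `gam (f k) (c - s)` if `s ≤ c ≤ d + s`, else `0`.
All are nonzero; `Π(x,y) := D H F W_R ≠ 0`. Put `φ(β,β',b,v) := ((β, β.β'-b), (v, v.β'))`;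
`Π(φ(..))` is a nonzero polynomial in `(β,β',b,v)` (every `((β,s),(v,c))` with `v ≠ 0` is in the image of `φ`,
`m ≥ 1`; see `GOOD.lean`). `P := Π(φ(β,β',b,v)) W₁(β,β',b,v) W₂(β,β',b,v')`, a nonzero polynomial in
`(β,β',b;v,v')`. `G_LD` (`κ = Fin m`): there are `β, b, v` with `b + conj b = ∑ β_i conj β_i` and
`P(β, conj β, b; v, conj v) ≠ 0`. `a := conj b`: `Null β a`; `F ≠ 0` gives `fv f β a ≠ 0` (`ββ̄ - b = conj b`).
Now fix `(β,a)`. `Q(w) := Π((β,a),(w, w.conj β)) W₁(..;w) W₂'(w)`, where `W₂'(w) := conj (W₂(..; conj w))` is a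
polynomial in `w` (conjugated coefficients, `Pool.Agent.Helper28.Ball.cj`), is a polynomial with
`Q(v) ≠ 0`. `G_OB` gives the orthogonal `e_i` with `Q(e_i) ≠ 0`.
`Good f d q β a (e i)`: `nz` from `D`; `top`: `AJ f β a w d k₁ = H(w, w.conj β)` (coefficient of `t^d` in
`f_k(x + t y)`, as `totalDegree (f k) ≤ d`); `ext`: at the point `x₀ = ((β,a),(w, w.conj β))` the value of
`gam (f k) j` is `AJ f β a w j k`. If `κ` satisfies the windows then `u := κ|_(Fin (d+q))` is in the kernel of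
`M(x₀)` (sum over `c = j + s`), so there is `K` with `M K = 0`, `K(x₀) = u`. Substitute
`x := (X_inl i, ∑ conj β_i X_inl i - conj a)`, `y := (X_inr i, ∑ conj β_i X_inr i)`: this maps `gam (f k) j` to
`gam (gp f β (conj a) k) j` (both are the coefficient of `t^j` of `f_k` at the point `x + t y`), so
`l i := ` image of `K i` (`0` for `i ≥ d + q`) satisfies `Win (gp f β (conj a)) d q l`, and its value at `(β,w)` is
`K(x₀)` (`∑ conj β_i β_i - conj a = a`). -/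
def J_GOODB : Prop :=
  ∀ (m N d q : ℕ) (f : Fin (N + 1) → MvPolynomial (Fin m ⊕ Unit) ℂ), SMap m N d f → 1 ≤ m →
    ∀ W₁ W₂ : MvPolynomial (V3 m ⊕ Fin m) ℂ, W₁ ≠ 0 → W₂ ≠ 0 →
    ∃ (β : Fin m → ℂ) (a : ℂ), Null β a ∧ fv f β a ≠ 0 ∧ ∃ e : Fin m → Fin m → ℂ,
      (∀ i j, i ≠ j → ∑ l, e i l * conj (e j l) = 0) ∧ (∀ i, e i ≠ 0) ∧
      ∀ i, Good f d q β a (e i) ∧
        eval (Sum.elim (pt β (fun p => conj (β p)) (conj a)) (e i)) W₁ ≠ 0 ∧
        eval (Sum.elim (pt β (fun p => conj (β p)) (conj a)) fun p => conj (e i p)) W₂ ≠ 0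

/-- **J_W** (the key divisibility).

PROOF. If `w = 0` then `h = 0` and both sides are trivial. Let `w ≠ 0`, `h = ξ^j G` with
`ξ := ∑ w_i (X_i - β_i)`, `totalDegree G ≤ d - j` (or `h = 0`, trivial). In
`B := MvPolynomial (Fin m ⊕ Fin m) ℂ`: `ξ(x + t y) = ξ + t ω`, `ω := ∑ w_i y_i` (`ξ` now in the variables
`inl`). Let `h_i := gam h i`, `G_i := gam G i` (`gam` is multiplicative for `Σ_i gam h i t^i`), so
`h_i = ∑_k C(j,k) ξ^(j-k) ω^k G_(i-k)` (`G_i = 0` for `i < 0` and `i > d - j`; `h_i = 0` for `i > d`).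
`g_k := ∑_(i ≥ 0) G_i l_(i+k)` (`k ≥ 0`). For `s < q` multiply by `l_(i+s)` and sum over `i`:
(1) `∑_(k ≤ j) C(j,k) ξ^(j-k) ω^k g_(k+s) = 0`.
And `∑_(i<d) l_i h_(i+1) = ∑_(k ≤ j) C(j,k) ξ^(j-k) ω^k (∑_i l_i G_(i+1-k))`; all terms with `k < j` are divisible
by `ξ`, the term `k = j` is `ω^j g_(j-1)` (`j ≥ 1`, put `i = i' + j - 1`). `atx β` maps `ξ` to `0`, so
(2) `atx β (∑_(i<d) l_i h_(i+1)) = ω^j atx β (g_(j-1))` (`ω` is now `∑ w_i X_i`).
Choose `e` with `∑ w_i e_i = 1` and let `θ : B → (MvPolynomial (Fin m) ℂ)[ε]` be the algebra hom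
`x_i ↦ β_i + ε e_i`, `y_i ↦ X_i`; `θ ξ = ε`, `θ ω = ω`. `y_i := ` coefficient of `ε^i` in `θ g_(j-1+i)`; so
`y_0 = atx β (g_(j-1))`. Coefficient of `ε^(s+1)` in `θ` of (1): the term `k` contributes the coefficient
of `ε^(s+1-j+k)` of `θ g_(k+s)`, which with `i := k + s + 1 - j` is `y_i` (`0` if `i < 0`):
`∑_(i=0)^(s+1) C(j, s+1-i) ω^(i+j-s-1) y_i = 0`, `s < q` (`C(j,s+1-i) ≠ 0` only for `i + j ≥ s + 1`). Multiply by
`ω^(s+1)` and cancel `ω^j`: with `z_i := ω^i y_i`, `∑_(i=0)^r C(j,r-i) z_i = 0` for `1 ≤ r ≤ q`. This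
triangular system gives `z_r = (-1)^r C(j+r-1, r) z_0` for `0 ≤ r ≤ q` (the solution is unique and
`∑_i C(j,r-i) (-1)^i C(j+i-1,i) = 0`, from `(1+x)^j (1+x)^(-j) = 1`). For `r = q`:
`ω^q y_q = ± C(j+q-1,q) y_0`, a nonzero rational multiple, so `ω^q ∣ y_0`, and (2) gives the claim.
(If you prefer to avoid the explicit coefficient: let `P_r` be the statement `z_r = c_r z_0` with `c_r` the
coefficients of the power series `(1+x)^(-j)`.) -/
def J_W : Prop :=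
  ∀ (m d j q : ℕ) (β w : Fin m → ℂ) (h : MvPolynomial (Fin m) ℂ)
    (l : ℕ → MvPolynomial (Fin m ⊕ Fin m) ℂ), 1 ≤ j → h.totalDegree ≤ d →
    (∑ i, C (w i) * (X i - C (β i))) ^ j ∣ h →
    (∀ s < q, ∑ i ∈ range (d + 1), l (i + s) * gam h i = 0) →
    (∑ i, C (w i) * X i) ^ (j + q) ∣ atx β (∑ i ∈ range d, l i * gam h (i + 1))

/-- **J_DIMC** (dimension of the span, in a chart). From `H_TX` (`Pool/Agent/Helper56/DC/TX.lean`).

PROOF. `R := MvPolynomial (Fin m) ℂ`, `V := span (A0, range (ev c))`, `r := finrank V ≤ C(m+E,m)`.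
(1) There is `P ∈ MvPolynomial (Fin m) R`, `P ≠ 0`, `totalDegree P ≤ E`, with `pr P (tay1 (hfc c u)) = 0` for all
`u` with `hf u A0 = 0` (equivalently `hf A0 u = 0`). Namely let `φ_1..φ_(r-1)` be linear functionals on
`ℂ^(N+1)` whose restrictions to `V` span `{φ ∈ V* | φ(A0) = 0}` (dimension `r - 1` as `0 ≠ A0 ∈ V`);
`φ_t ∘ c := ∑_k φ_t(e_k) c_k ∈ R`. Unknowns `P_α`, `|α| ≤ E`, their number is `C(m+E,m) > r - 1`
(`card_SJ`, `exists_sol` in `Pool/Agent/Helper15/DC/PDEC.lean`); equations `∑_α P_α α! coeff α (tay1 (φ_t ∘ c)) = 0`, `1 ≤ t < r`.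
A homogeneous system with more unknowns than equations over a domain has a nonzero solution. For `u` with
`hf A0 u = 0` the functional `x ↦ hf x u` vanishes at `A0`, so on `V` it is `∑ λ_t φ_t`, so
`hfc c u = ∑ λ_t φ_t ∘ c` (equality of the values at all `y`, `ev c y ∈ V`).
(2) `J := totalDegree P`, `S := homogeneousComponent J P ≠ 0`. For `u := ev c v`, `hf u A0 = 0`. If `J = 0`
then `P = C p₀` and `p₀ * hfc c u = 0`, so `hfc c u = 0`; evaluate at `v`. Let `J ≥ 1` (then `m ≥ 1`). Let `v` be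
such that there is `β` with `1 + ∑ β_i conj v_i = 0` and `eval β (ev2 (conj v) S) ≠ 0`. Then
`xp β v = 1 + ∑ C (conj v_i) X_i`, and `H_TX` (`(..)^J ∣ (..)^E ∣ hfc c u`) gives `hfc c (ev c v) = 0`; evaluate
at `v`: `hf (ev c v) (ev c v) = 0`.
(3) These `v` are dense: choose `β₀, w₀` with `eval β₀ (ev2 w₀ S) ≠ 0` and `s₀ := ∑ β₀_i w₀_i ≠ 0` (two nonzero
polynomials in `(β,w)`, `m ≥ 1`), `w₁ := -w₀/s₀`. For `w` with `s(w) := ∑ β₀_i w_i ≠ 0` put `β(w) := -β₀/s(w)`;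
`F(w) := s(w)^M eval β(w) (ev2 w S)` is, for large `M`, a polynomial in `w`, and `F(w₁) ≠ 0` because
`s(w₁) = -1`, `β(w₁) = β₀` and `S` is homogeneous of degree `J` in `w`. So for all `v` outside the zero set
of the nonzero polynomial `s F` in `conj v`, `hf (ev c v) (ev c v) = 0`; the complement of this zero set is
dense and `v ↦ hf (ev c v) (ev c v)` is continuous. (Or restrict everything to complex lines through
`conj w₁`: for given `v` the points `v_t := v₁ + t (v - v₁)`, `t` real, `v₁ := conj w₁`, satisfy `s F ≠ 0` for all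
but finitely many real `t`, and `hf (ev c v_t) (ev c v_t)` is a polynomial in the real variable `t`, so it
vanishes at `t = 1`.) -/
def J_DIMC : Prop :=
  ∀ (m N E : ℕ) (A0 : Fin (N + 1) → ℂ) (c : Fin (N + 1) → MvPolynomial (Fin m) ℂ), A0 ≠ 0 →
    (∀ y, hf (ev c y) A0 = 0) →
    (∀ v : Fin m → ℂ, (1 + lf v) ^ E ∣ hfc c (ev c v)) →
    Module.finrank ℂ (Submodule.span ℂ (insert A0 (Set.range (ev c)))) ≤ (m + E).choose m →
    ∀ v, hf (ev c v) (ev c v) = 0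

/-- **J_DIM** (the same without chart). From `J_DIMC`.

PROOF. Let `v 0 ≠ 0`, `s := v 0`, `c̃_k := c_k(s, s X_0, .., s X_(m-1))`, i.e. `aeval (Fin.cons (C s) fun i => C s * X i)`
applied to `c_k`. `ev c̃ y = ev c (s (1,y))`. Let `v'' : Fin m → ℂ`, `v' := s (1, v'')`. Substituting in
`(lf v')^E ∣ hfc c (ev c v')` gives `(C (s conj s) * (1 + lf v''))^E ∣ hfc c̃ (ev c̃ v'')`, and `s conj s ≠ 0`.
The span of `A0` and `range (ev c̃)` is contained in the span for `c`. So `J_DIMC` gives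
`hf (ev c̃ v'') (ev c̃ v'') = 0` for all `v''`, in particular for `v'' := (v_(i+1)/s)_i`, which is the claim for
`v`. For `v 0 = 0` use continuity (or: `t ↦ hf (ev c (v + t e_0)) (ev c (v + t e_0))`, `t` real, is a polynomial
vanishing for all real `t ≠ 0`). -/
def J_DIM : Prop :=
  ∀ (m N E : ℕ) (A0 : Fin (N + 1) → ℂ) (c : Fin (N + 1) → MvPolynomial (Fin (m + 1)) ℂ), A0 ≠ 0 →
    (∀ y, hf (ev c y) A0 = 0) →
    (∀ v : Fin (m + 1) → ℂ, (lf v) ^ E ∣ hfc c (ev c v)) →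
    Module.finrank ℂ (Submodule.span ℂ (insert A0 (Set.range (ev c)))) ≤ (m + E).choose m →
    ∀ v, hf (ev c v) (ev c v) = 0

/-- **J_JW** (without differential equations of order `≤ J` the `J`-jets are independent at a generic
point). From `J_RK`.

PROOF. `J_RK` with `σ = V3 m`, rows `k`, columns `α` with `|α| ≤ J` (a finite type, e.g. the subtype of a
`Finset`), entries `M k α := α! coeff α (tay3 (gg f k))`. Let `x := pt β (conj β) b`, `W(x) ≠ 0`. By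
`map_spec_tay3`, `spec_gg` (`Pool/Agent/Helper69/DC/Asm.lean`, `Asm2.lean`) and `eval_spec`,
`eval x (coeff α (tay3 (gg f k))) = eval β (coeff α (tay1 (gp f β b k)))`. So `p_α` is in the kernel of `M(x)`
and there is `K` with `M K = 0`, `K(x) = (p_α)`. `P := ∑_α K_α X^α` has `totalDegree ≤ J` and `IsPDE f P`, so
`P = 0`, `K = 0`, `p = 0`. -/
def J_JW : Prop :=
  ∀ (m N J : ℕ) (f : Fin (N + 1) → MvPolynomial (Fin m ⊕ Unit) ℂ),
    (∀ P : MvPolynomial (Fin m) (MvPolynomial (V3 m) ℂ), P.totalDegree ≤ J → IsPDE f P → P = 0) →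
    ∃ W : MvPolynomial (V3 m) ℂ, W ≠ 0 ∧ ∀ (β : Fin m → ℂ) (b : ℂ),
      eval (pt β (fun i => conj (β i)) b) W ≠ 0 → ∀ p : MvPolynomial (Fin m) ℂ, p.totalDegree ≤ J →
      (∀ k, pr p (MvPolynomial.map (eval β) (tay1 (gp f β b k))) = 0) → p = 0

/-- **J_CNTJ** (count: vectors orthogonal to all jets of order `≤ q`).

PROOF. For `|α| ≤ q` let `j_α := (eval β (coeff α (tay1 (g k))))_k ∈ ℂ^(N+1)`. By hypothesis (for
`p = ∑ p_α X^α`, `p_α = λ_α/α!`) the `C(m+q,q)` vectors `j_α` are linearly independent. For `u ∈ T`: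
`hf j_α u = eval β (coeff α (tay1 (hfc g u)))` (linearity, `tay1 (C c) = C (C c)`) and
`hfc g u = (xp β w)^(q+1) r`; `tay1 (xp β w) = C (xp β w) + ∑ C (C (conj w_i)) X_i`; `map (eval β)` of it is
`∑ C (conj w_i) X_i`, homogeneous of degree `1`. So all coefficients of degree `≤ q` of
`map (eval β) (tay1 (hfc g u))` vanish: `hf j_α u = 0`, also for all `u ∈ span T`. The form `hf` is
nondegenerate, so `{u | hf j_α u = 0 for all α}` has dimension `N + 1 - C(m+q,q)` (a conjugate linear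
condition; use `u ↦ conj u`). -/
def J_CNTJ : Prop :=
  ∀ (m N q : ℕ) (β : Fin m → ℂ) (g : Fin (N + 1) → MvPolynomial (Fin m) ℂ),
    (∀ p : MvPolynomial (Fin m) ℂ, p.totalDegree ≤ q →
      (∀ k, pr p (MvPolynomial.map (eval β) (tay1 (g k))) = 0) → p = 0) →
    ∀ T : Set (Fin (N + 1) → ℂ), (∀ u ∈ T, ∃ w : Fin m → ℂ, xp β w ^ (q + 1) ∣ hfc g u) →
      Module.finrank ℂ (Submodule.span ℂ T) + (m + q).choose m ≤ N + 1

/-- **J_GS** (divisibility of a family by the same power for every parameter).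

PROOF. Prove it with the hypothesis only for `ζ ≠ 0`, by induction on `k` (`k = 0` trivial).
`L := ∑ X_(inl i) X_(inr i)`. `L ∣ H`: `H` vanishes at all `(y,ζ)` with `∑ y_i ζ_i = 0`, `ζ ≠ 0`. As in `H_QD`
(`Pool/Agent/Helper85/DC/QD.lean`, where this is done in slightly different clothes): `L` is linear in `y_0` with
leading coefficient `ζ_0`; division gives `ζ_0^n H = L Q + R`, `R` not involving `y_0`
(`n` = degree of `H` in `y_0`; pseudo division), `R` vanishes at all `(y,ζ)`, `ζ_0 ≠ 0` (choose `y_0` with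
`L = 0`), so `R = 0`, `L ∣ ζ_0^n H`; `L` is prime (`MvPolynomial.irreducible_sum_smul_X`,
`MvPolynomial.irreducible_sumSMulXSMulY` or similar, `m ≥ 2`) and does not divide `ζ_0`, so `L ∣ H`.
`H = L H'`. For `ζ ≠ 0`: `l_ζ := ∑ C ζ_i X_i ≠ 0` and `l_ζ^(k+1) ∣ l_ζ H'(·,ζ)` gives `l_ζ^k ∣ H'(·,ζ)`. -/
def J_GS : Prop :=
  ∀ (m k : ℕ) (H : MvPolynomial (Fin m ⊕ Fin m) ℂ), 2 ≤ m →
    (∀ ζ : Fin m → ℂ, ζ ≠ 0 → (∑ i : Fin m, C (ζ i) * X i) ^ k ∣
      (aeval (Sum.elim X fun i => C (ζ i)) H : MvPolynomial (Fin m) ℂ)) →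
    (∑ i : Fin m, X (Sum.inl i) * X (Sum.inr i) : MvPolynomial (Fin m ⊕ Fin m) ℂ) ^ k ∣ H

/-- **J_CL** (the second derivatives of the family `c`). From `J_GS`.

PROOF. For `l ∈ ℕ` put `a_k := atx β (gam (g k) l)` (polynomials in `w`, the value at `w` is
`eval (Sum.elim β w) (gam (g k) l)`) and
`H_l(w,ζ) := a_0(w) c̄_0(ζ) - ∑_k a_(k+1)(w) c̄_(k+1)(ζ) ∈ MvPolynomial (Fin m ⊕ Fin m) ℂ`, `c̄_k` = `c_k` with
conjugated coefficients (`Pool.Agent.Helper28.Ball.cj`). For `ζ = conj y`: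
`H_l(·,ζ) = atx β (gam (hfc g (ev c y)) l)`. LEMMA (T): for `h ∈ MvPolynomial (Fin m) ℂ`, `xp β y^k ∣ h` iff
`(lf y)^k ∣ atx β (gam h l)` for all `l`. [`h(β + w) = ∑_l (atx β (gam h l))(w)` and `atx β (gam h l)` is the
homogeneous component of degree `l` of `h(β + w)`; `xp β y (β + w) = lf y (w)`. If `h = xp β y^k r` then by
multiplicativity `atx β (gam h l) = (lf y)^k atx β (gam r (l-k))`. Conversely sum over `l` and translate.]
So `(∑ C ζ_i X_i)^2 ∣ H_l(·,ζ)` for every `ζ`, and by `J_GS` `H_l = (∑ w_i ζ_i)^2 G_l(w,ζ)`.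
Let `w` with `∑ w_i conj v_i = 0`, `ζ₀ := conj v`. `hf (a(w)) (d2v u u' v c) = ∑ ± a_k(w) conj (d2 u u' v c_k)` is the
second derivative of `H_l(w,·)` at `ζ₀` in the directions `conj u`, `conj u'` (`conj (d2 u u' v P) =
d2 (conj u) (conj u') (conj v) P̄`). As `∑ w_i ζ₀_i = 0`, by the Leibniz rule it is
`2 (∑ w_i conj u_i) (∑ w_i conj u'_i) G_l(w,ζ₀)`. This proves (1). (2): by hypothesis
`(∑ w_i conj u_i) (∑ w_i conj u'_i) G_l(w,ζ₀) = 0` for all `w` orthogonal to `v`. `u` and `u'` are nonzero and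
orthogonal to `v`, so the two linear forms are not identically zero on this hyperplane, so (polynomials on
a hyperplane, a domain) `G_l(w,ζ₀) = 0` for all `w` orthogonal to `v`, so `lf v ∣ G_l(·,ζ₀)`,
`(lf v)^3 ∣ atx β (gam (hfc g (ev c v)) l)` for all `l`, and (T) gives `xp β v^3 ∣ hfc g (ev c v)`. -/
def J_CL : Prop :=
  ∀ (m N : ℕ) (β : Fin m → ℂ) (g c : Fin (N + 1) → MvPolynomial (Fin m) ℂ), 2 ≤ m →
    (∀ y, xp β y ^ 2 ∣ hfc g (ev c y)) →
    ∀ v u u' : Fin m → ℂ, v ≠ 0 → u ≠ 0 → u' ≠ 0 → ∑ i, u i * conj (v i) = 0 →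
    ∑ i, u' i * conj (v i) = 0 →
    (∀ w : Fin m → ℂ, ∑ i, w i * conj (v i) = 0 →
      (∑ i, w i * conj (u i)) * (∑ i, w i * conj (u' i)) = 0 →
      ∀ l : ℕ, hf (fun k => eval (Sum.elim β w) (gam (g k) l)) (d2v u u' v c) = 0) ∧
    ((∀ w : Fin m → ℂ, ∑ i, w i * conj (v i) = 0 →
      ∀ l : ℕ, hf (fun k => eval (Sum.elim β w) (gam (g k) l)) (d2v u u' v c) = 0) →
      xp β v ^ 3 ∣ hfc g (ev c v))

/-- **J_CR** (cross orthogonality of second derivatives). From `J_GS`.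

PROOF. `H(y,ζ) := c_0(y) c̄'_0(ζ) - ∑_k c_(k+1)(y) c̄'_(k+1)(ζ)` (`c̄'_k` conjugated coefficients). For
`ζ = conj v`, `H(·,ζ) = hfc c (ev c' v)`, divisible by `(∑ C ζ_i X_i)^3`. `J_GS`: `H = L^3 Q`,
`L := ∑ y_i ζ_i`. `hf (d2v (e i) (e j) (e a) c) (d2v (e i') (e j') (e b) c')` is the value at `(y,ζ) = (e_a, conj e_b)` of
`D_1 D_2 D_3 D_4 H`, `D_1, D_2` derivatives with respect to `y` in the directions `e_i, e_j`, `D_3, D_4` with respect
to `ζ` in the directions `conj e_i', conj e_j'`. By the Leibniz rule `D_1 D_2 D_3 D_4 (L L L Q)` is a sum over all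
distributions of `1,2,3,4` to the four factors. A factor `L` without derivative is `⟨e_a,e_b⟩ = 0`, so each of
the three factors `L` gets at least one derivative. `D_1 D_2 L = D_3 D_4 L = 0` (bilinear), and values:
`D_1 L = ⟨e_i,e_b⟩`, `D_2 L = ⟨e_j,e_b⟩`, `D_3 L = ⟨e_a,e_i'⟩`, `D_4 L = ⟨e_a,e_j'⟩`, `D_1 D_3 L = ⟨e_i,e_i'⟩` etc.
If three factors get one derivative each, then among them are both `1,2` or both `3,4`, and the product
contains `⟨e_i,e_b⟩⟨e_j,e_b⟩ = 0` (`i ≠ j`) or `⟨e_a,e_i'⟩⟨e_a,e_j'⟩ = 0` (`i' ≠ j'`). Otherwise two factors get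
one each and one gets two, one from `{1,2}` and one from `{3,4}`: e.g. `⟨e_i,e_b⟩⟨e_a,e_i'⟩⟨e_j,e_j'⟩ ≠ 0` would
need `i = b`, `i' = a`, `j = j'`, so `{a,i,j} = {b,i',j'}`; the other three cases are the same. So
everything vanishes. -/
def J_CR : Prop :=
  ∀ (m N : ℕ) (c c' : Fin (N + 1) → MvPolynomial (Fin m) ℂ), 2 ≤ m →
    (∀ v, (lf v) ^ 3 ∣ hfc c (ev c' v)) →
    ∀ e : Fin m → Fin m → ℂ, (∀ i j, i ≠ j → ∑ l, e i l * conj (e j l) = 0) →
    ∀ a i j b i' j' : Fin m, a ≠ b → i ≠ j → i' ≠ j' →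
      ({a, i, j} : Finset (Fin m)) ≠ {b, i', j'} →
      hf (d2v (e i) (e j) (e a) c) (d2v (e i') (e j') (e b) c') = 0

/-- **J_CNTZ** (final count). From `G_HF2` (`Pool/Agent/Helper83/DC/HF2.lean`).

PROOF. If `w_a ∈ Z a` and `∑ w_a ∈ ℂ A0` then `hf w_a w_a = hf w_a (∑_b w_b) = 0` (cross terms vanish,
`hf w_a A0 = 0`), `hf w_a A0 = 0`, `hf A0 A0 = 0` (`A0 ∈ Z a`), so `w_a ∈ ℂ A0` by `G_HF2`. So, with a
complement `Z'_a` of `ℂ A0` in `Z a` (dimension `≥ d`), the sum of `ℂ A0` and the `Z'_a` is direct, of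
dimension `≥ 1 + m d`, and contained in `{x | hf x A0 = 0}`, a proper subspace (`A0 ≠ 0`, nondegenerate), of
dimension `≤ N`. See `Pool/Agent/Helper85/DC/CNT.lean`. -/
def J_CNTZ : Prop :=
  ∀ (m N d : ℕ) (A0 : Fin (N + 1) → ℂ) (Z : Fin m → Submodule ℂ (Fin (N + 1) → ℂ)), 1 ≤ m →
    A0 ≠ 0 → (∀ a, A0 ∈ Z a) → (∀ a, ∀ x ∈ Z a, hf x A0 = 0) →
    (∀ a b, a ≠ b → ∀ x ∈ Z a, ∀ y ∈ Z b, hf x y = 0) →
    (∀ a, d + 1 ≤ Module.finrank ℂ (Z a)) → m * d + 1 ≤ N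

end Pool.Agent.Helper66.DC
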