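import Mathlib
import Pool.Agent.Helper28.Ball.Mono
import Pool.Agent.Helper69.DC.Defs
import Pool.Agent.Helper69.DC.Defs2
import Pool.Agent.Helper66.DC.Defs3
import Pool.Agent.Helper66.DC.Goals3

/-!
Goals (packets) of the fourth stage: the sharp bound `(n-1) d + 1 ≤ N` for `N < C(n+K, K+1)`,
`n > 16 K²`.
-/

namespace Pool.Agent.Helper66.DC

open MvPolynomial Finset ComplexConjugate Pool.Agent.Helper69.DC

/-- The coefficient of `∏_(i ∈ S) ε_i` in `P(e_a + ∑ ε_i e_i)`. -/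
noncomputable def dcf {m : ℕ} (e : Fin m → Fin m → ℂ) (a : Fin m) (S : Finset (Fin m))
    (P : MvPolynomial (Fin m) ℂ) : ℂ :=
  coeff (∑ i ∈ S, Finsupp.single i 1)
    (aeval (fun p => C (e a p) + ∑ i, C (e i p) * X i) P : MvPolynomial (Fin m) ℂ)

/-- The same for a vector of polynomials. -/
noncomputable def dv {m N : ℕ} (e : Fin m → Fin m → ℂ) (a : Fin m) (S : Finset (Fin m))
    (c : Fin (N + 1) → MvPolynomial (Fin m) ℂ) : Fin (N + 1) → ℂ := fun k => dcf e a S (c k)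

/-- Extension of relations keeping the order of vanishing `k`. -/
def Ext {m N : ℕ} (f : Fin (N + 1) → MvPolynomial (Fin m ⊕ Unit) ℂ) (d k : ℕ)
    (β : Fin m → ℂ) (a : ℂ) (v : Fin m → ℂ) : Prop :=
  ∀ κ : ℕ → ℂ, ∑ j ∈ range (d + 1), κ j • AJ f β a v j = 0 →
    xp β v ^ k ∣ hq f β (conj a) (∑ j ∈ range d, κ j • AJ f β a v (j + 1)) →
    ∃ l : ℕ → MvPolynomial (Fin m ⊕ Fin m) ℂ, Win (gp f β (conj a)) d 1 l ∧
      (∀ y, xp β y ^ k ∣ hfc (gp f β (conj a)) (ev (cf (gp f β (conj a)) β d l) y)) ∧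
      ∀ i < d + 1, eval (Sum.elim β v) (l i) = κ i

/-- A good direction for the orders up to `K`. -/
structure GoodX {m N : ℕ} (f : Fin (N + 1) → MvPolynomial (Fin m ⊕ Unit) ℂ) (d K : ℕ)
    (β : Fin m → ℂ) (a : ℂ) (v : Fin m → ℂ) : Prop where
  nz : ∀ t : ℂ, fv f (fun i => β i + t * v i) (a + t * ∑ i, v i * conj (β i)) ≠ 0
  top : AJ f β a v d ≠ 0
  ext : ∀ k, 2 ≤ k → k ≤ K → Ext f d k β a v

/-- **Q_RK2** (the rank lemma relative to a specialisation; a strengthening of `J_RK`,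
`Pool/Agent/Helper86/DC/RK.lean`).

PROOF. `W`, `R`, `C`, `A`, `K_c` (`c ∉ C`) as in the proof of `J_RK`: `K_c = W e_c - ∑_(c' ∈ C) (..)_(c') e_(c')`,
`M K_c = 0`. Put `K := ∑_(c ∉ C) ψ(u_c) K_c`. `M K = 0`. `φ(K) - φ(W) u` is in the kernel of `φ(M)` and
supported on `C` (for `c ∉ C`, `φ(ψ(u_c)) φ(W) = u_c φ(W)`), and `φ(det A) = φ(W) ≠ 0` in the domain
`MvPolynomial τ ℂ`, so it is `0`. -/
def Q_RK2 : Prop :=
  ∀ (σ ρ κ : Type) [Fintype ρ] [Fintype κ] (M : ρ → κ → MvPolynomial σ ℂ),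
    ∃ W : MvPolynomial σ ℂ, W ≠ 0 ∧ ∀ (τ : Type) (φ : MvPolynomial σ ℂ →ₐ[ℂ] MvPolynomial τ ℂ)
      (ψ : MvPolynomial τ ℂ →ₐ[ℂ] MvPolynomial σ ℂ), (∀ q, φ (ψ q) = q) → φ W ≠ 0 →
      ∀ u : κ → MvPolynomial τ ℂ, (∀ r, ∑ c, φ (M r c) * u c = 0) →
      ∃ K : κ → MvPolynomial σ ℂ, (∀ r, ∑ c, M r c * K c = 0) ∧ ∀ c, φ (K c) = φ W * u c

/-- **Q_EXT** (relations with order of vanishing `k` extend). From `J_RK` and `Q_RK2`.

PROOF. `ι := Fin m ⊕ Unit`, `σ := ι ⊕ ι`. Let `W` be the polynomial of `Q_RK2` for the matrix over `σ` with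
rows `r ∈ Fin (N+1)`, columns `j ∈ Fin (d+1)` and entries `gam (f r) j`. Fix `(β,a)` null and `k`, let
`g := gp f β (conj a)`, `A_j(y)_r := atx β (gam (g r) j) ∈ ℂ[y]` (`AJ f β a y j r` is its value at `y`,
`AJ_eq_gam` in `Pool/Agent/Helper66/DC/Asm4.lean`).

STEP 1 (on `x = β`). For `κ = (κ_0..κ_d)` put `c(y) := ∑_(j<d) κ_j A_(j+1)(y)`. Condition (i):
`∑_(j≤d) κ_j A_j(y) = 0`. Condition (ii): `xp β y^k ∣ hfc g (c(y))`. Let `ḡ_r` be `g_r` with conjugated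
coefficients, in variables `θ`, and `B_j(y,θ) := A_j(y)_0 ḡ_0(θ) - ∑_r A_j(y)_(r+1) ḡ_(r+1)(θ)`. Conjugating
coefficients, (ii) says that `(∑ y_i (θ_i - conj β_i))^k` divides `∑_(j<d) κ_j B_(j+1)(y,θ)` (as a polynomial in
`θ`). Substitute `θ_0 := conj β_0 + τ - ∑_(i≥1) y_i s_i`, `θ_i := conj β_i + y_0 s_i` (`i ≥ 1`) (a polynomial
substitution; `τ := s_0`); then `∑ y_i (θ_i - conj β_i) = y_0 τ`. For `y_0 ≠ 0` this is an invertible affine change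
of the variables `θ ↔ (τ, s_1..)`, so (ii) holds iff `τ^k` divides `∑_(j<d) κ_j B♯_(j+1)(y; τ, s)`, i.e. iff
its coefficients at all monomials in `(τ,s)` with `τ`-exponent `< k` vanish: finitely many linear equations for
`κ` whose coefficients are polynomials in `y`. Let `M_k(y)` be the matrix of (i) and these equations and `W_k(y)`
from `J_RK`, `V := X_0 * W_k`. Let `eval v V ≠ 0` and let `κ` satisfy (i), (ii) at `y = v`. `J_RK` gives polynomials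
`K_j(y)` with `K(v) = κ` and `M_k K = 0`; `K'_j := (X_0/v_0) K_j` satisfies (i), (ii) for all `y` (for `y_0 = 0`
the vector `c(y)` is `0`), and `K'(v) = κ`.

STEP 2. Let `φ : ℂ[σ] → ℂ[y]`: `inl p ↦ (C β, C a)`, `inr u ↦ (X_i, ∑ C(conj β_i) X_i)` (so the line through
`(β,a)` with direction `(y, y.conj β)`), `φ(gam (f r) j) = A_j(y)_r`, `ψ(X_i) := X (inr (inl i))`. `φ W ≠ 0`
because its value at `v` is `≠ 0`. `Q_RK2` with `u := K'` ((i)): `K̃` with `M K̃ = 0`, `φ(K̃_j) = φ(W) K'_j`. Let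
`θ : ℂ[σ] → MvPolynomial (Fin m ⊕ Fin m) ℂ`: `inl p ↦ (X_(inl i), ∑ C(conj β_i) X_(inl i) - C(conj a))`,
`inr u ↦ (X_(inr i), ∑ C(conj β_i) X_(inr i))`. `θ(gam (f r) j) = gam (g r) j`, and `atx β (θ q) = φ q`
(`∑ conj β_i β_i - conj a = a`). `l_j := C(1/(φ W)(v)) * θ(K̃_j)` (`j ≤ d`, `0` otherwise). `Win g d 1 l` holds;
`l_j(β,y) = (φW(y)/φW(v)) K'_j(y)`, so `l_j(β,v) = κ_j` and `cf g β d l` is `φW/φW(v)` times `∑_(j<d) K'_j A_(j+1)`,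
which gives the divisibility for all `y`. -/
def Q_EXT : Prop :=
  ∀ (m N d : ℕ) (f : Fin (N + 1) → MvPolynomial (Fin m ⊕ Unit) ℂ), SMap m N d f → 2 ≤ m →
    ∃ W : MvPolynomial ((Fin m ⊕ Unit) ⊕ (Fin m ⊕ Unit)) ℂ, W ≠ 0 ∧
    ∀ (β : Fin m → ℂ) (a : ℂ), Null β a → ∀ k : ℕ, ∃ V : MvPolynomial (Fin m) ℂ, V ≠ 0 ∧
    ∀ v : Fin m → ℂ, eval (Sum.elim (Sum.elim β fun _ => a)
        (Sum.elim v fun _ => ∑ i, v i * conj (β i))) W ≠ 0 → eval v V ≠ 0 → Ext f d k β a v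

/-- **Q_GOODX** (a null point with an orthogonal basis of good directions). From `G_LD`, `G_BEZ`, `G_OB`
and `Q_EXT`. It is `J_GOODB` (see its proof in `Goals3.lean` and the file of the packet DC3-GOODB) with `Q_EXT`
in the place of `J_RK`.

PROOF. As for `J_GOODB`: `D(x,y)` (`G_BEZ`), `H(y)` (top component), `F(x)`, and `W` of `Q_EXT` are nonzero
polynomials on `σ`, `Π := D H F W`; `P := Π(φ(β,β',b,v)) W₂(β,β',b,v') ≠ 0`; `G_LD` gives `(β,b)`, `a := conj b`, and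
`v` with `P ≠ 0`. Now `(β,a)` is fixed. The polynomial `Π((β,a),(w,w.conj β)) W₂'(w)` in `w` is nonzero (at
`w = v`). For `2 ≤ k ≤ K` let `V_k ≠ 0` be the polynomials of `Q_EXT`. `G_OB` for the product of all these nonzero
polynomials in `w` gives the basis `e_i`. -/
def Q_GOODX : Prop :=
  ∀ (m N d K : ℕ) (f : Fin (N + 1) → MvPolynomial (Fin m ⊕ Unit) ℂ), SMap m N d f → 2 ≤ m →
    ∀ W₂ : MvPolynomial (V3 m ⊕ Fin m) ℂ, W₂ ≠ 0 →
    ∃ (β : Fin m → ℂ) (a : ℂ), Null β a ∧ fv f β a ≠ 0 ∧ ∃ e : Fin m → Fin m → ℂ,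
      (∀ i j, i ≠ j → ∑ l, e i l * conj (e j l) = 0) ∧ (∀ i, e i ≠ 0) ∧
      ∀ i, GoodX f d K β a (e i) ∧
        eval (Sum.elim (pt β (fun p => conj (β p)) (conj a)) fun p => conj (e i p)) W₂ ≠ 0

/-- **Q_CNTW** (linear algebra: windows and orders). `O k` is the space of vectors of order `≥ k`.

PROOF. `U := span {A_j | j ≤ d}`; for `q ≥ 1`, `K^(q) := {κ ∈ ℂ^(d+q) | ∑_(j≤d) κ_(j+l) A_j = 0, l < q}`,
`c(κ) := ∑_(j<d) κ_j A_(j+1)`. `dim K^(1) = d + 1 - dim U`. Truncation maps `K^(q)` to `K^(1)` with the same `c(κ)`.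
`C1 := c(K^(1)) + ℂ A_0 ⊆ U`, `F_k := C1 ∩ O k`; `F_2 = C1`, `F_(K+1) = ℂ A_0`. For `q ≥ 1`, `c(κ) ∈ F_(q+1)` for
`κ ∈ K^(q)` (sixth hypothesis), and the kernel of `K^(q) → F_(q+1)/ℂA_0`, `κ ↦ c(κ)`, is `{κ | c(κ) = λ A_0}`, which
injects into `K^(q+1)` by `κ ↦ (-λ, κ_0, κ_1, ..)` (see the proof of `H_SQ`). So
`dim K^(q) ≤ (dim F_(q+1) - 1) + dim K^(q+1)`, and `K^(K) = 0`, so
`d + 1 - dim U ≤ ∑_(q=1)^(K-1) (dim F_(q+1) - 1) = ∑_(k=2)^K (k-1) g_k`, `g_k := dim F_k - dim F_(k+1)`. So there is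
`k` in `2..K` with `d + 1 - dim U ≤ (K-1) (k-1) g_k`; `g := g_k`. Choose `g` vectors of `F_k` independent modulo
`F_(k+1)`; subtracting multiples of `A_0 ∈ F_(k+1)` they are `c(κ_s)` with `κ_s ∈ K^(1)`, `c(κ_s) ∈ O k`.
If `∑ λ_s c(κ_s) ∈ O (k+1)`, it is in `C1 ∩ O (k+1) = F_(k+1)`, so `λ = 0`. As `A_0 ∈ O (k+1)`, the `c(κ_s)` and
`A_0` are independent, and lie in `U`: `g + 1 ≤ dim U`. -/
def Q_CNTW : Prop :=
  ∀ (d M K : ℕ) (A : ℕ → Fin M → ℂ) (O : ℕ → Submodule ℂ (Fin M → ℂ)), 2 ≤ K → A 0 ≠ 0 →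
    Antitone O → (∀ k, A 0 ∈ O k) →
    (∀ c ∈ O (K + 1), c ∈ Submodule.span ℂ (Set.range fun j : Fin (d + 1) => A j) →
      ∃ x : ℂ, c = x • A 0) →
    (∀ q, 1 ≤ q → ∀ κ : ℕ → ℂ, (∀ l < q, ∑ j ∈ range (d + 1), κ (j + l) • A j = 0) →
      ∑ j ∈ range d, κ j • A (j + 1) ∈ O (q + 1)) →
    (∀ κ : ℕ → ℂ, (∀ l < K, ∑ j ∈ range (d + 1), κ (j + l) • A j = 0) → ∀ j < d + K, κ j = 0) →
    ∃ (k g : ℕ) (κ : Fin g → ℕ → ℂ), 2 ≤ k ∧ k ≤ K ∧
      (∀ s, ∑ j ∈ range (d + 1), κ s j • A j = 0) ∧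
      (∀ s, ∑ j ∈ range d, κ s j • A (j + 1) ∈ O k) ∧
      (∀ lam : Fin g → ℂ, ∑ s, lam s • ∑ j ∈ range d, κ s j • A (j + 1) ∈ O (k + 1) → lam = 0) ∧
      d + 1 ≤ Module.finrank ℂ (Submodule.span ℂ (Set.range fun j : Fin (d + 1) => A j)) +
        (K - 1) * (k - 1) * g ∧
      g + 1 ≤ Module.finrank ℂ (Submodule.span ℂ (Set.range fun j : Fin (d + 1) => A j))

/-- **Q_DER** (pairing of a derivative with `g` on the hyperplane). From `J_GS`. Compare `J_CL`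
(`Pool/Agent/Helper87/DC/CL.lean`).

PROOF. `H(w,ζ) := g_0(β+w) c̄_0(ζ) - ∑_r g_(r+1)(β+w) c̄_(r+1)(ζ) ∈ MvPolynomial (Fin m ⊕ Fin m) ℂ`, `c̄` conjugated
coefficients. For `ζ = conj y`, `H(·,ζ)` is `hfc g (ev c y)` translated by `β`, divisible by
`(∑ w_i ζ_i)^k`. `J_GS`: `H = L^k G`, `L := ∑ w_i ζ_i`. `hf (ev g (β+w)) (dv e a S c)` is the coefficient of
`∏_(i∈S) ε_i` in `H(w, conj e_a + ∑ ε_i conj e_i)` (the conjugate of a coefficient is the coefficient of the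
conjugated polynomial), where `L(w, ..) = ⟨w,e_a⟩ + ∑ ε_i ⟨w,e_i⟩ = ∑ ε_i ⟨w,e_i⟩`, whose `k`-th power is homogeneous
of degree `k` in `ε`. As `|S| = k`, the coefficient of `∏_(i∈S) ε_i` in `(∑ ε_i ⟨w,e_i⟩)^k G(w, conj e_a + ..)` is
`k! ∏_(i∈S) ⟨w,e_i⟩ G(w, conj e_a)`. Finally `H(w, conj e_a) = (lf e_a)(w)^k G(w, conj e_a) =
(lf e_a)(w)^k G'(β+w)` for all `w`, so `G(w, conj e_a) = G'(β+w)` (domain, `e_a ≠ 0`). -/
def Q_DER : Prop :=
  ∀ (m N k : ℕ) (β : Fin m → ℂ) (g c : Fin (N + 1) → MvPolynomial (Fin m) ℂ), 2 ≤ m →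
    (∀ y, xp β y ^ k ∣ hfc g (ev c y)) →
    ∀ (e : Fin m → Fin m → ℂ) (a : Fin m) (S : Finset (Fin m)), e a ≠ 0 → S.card = k →
    ∀ G' : MvPolynomial (Fin m) ℂ, hfc g (ev c (e a)) = xp β (e a) ^ k * G' →
    ∀ w : Fin m → ℂ, ∑ p, w p * conj (e a p) = 0 →
    hf (ev g fun p => β p + w p) (dv e a S c) =
      (k.factorial : ℂ) * (∏ i ∈ S, ∑ p, w p * conj (e i p)) * eval (fun p => β p + w p) G'

/-- **Q_CROSS** (cross orthogonality of derivatives). From `J_GS`. Compare `J_CR`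
(`Pool/Agent/Helper30/DC/CR.lean`).

PROOF. `H(y,ζ) := c_0(y) c̄'_0(ζ) - ∑_r c_(r+1)(y) c̄'_(r+1)(ζ)`; for `ζ = conj v`, `H(·,ζ) = hfc c (ev c' v)`. `J_GS`:
`H = L^E Q`, `L := ∑ y_i ζ_i`. `hf (dv e a S c) (dv e b T c')` is the coefficient of `∏_(i∈S) ε_i ∏_(j∈T) η_j` in
`H(e_a + ∑ ε_i e_i, conj e_b + ∑ η_j conj e_j)` (a polynomial in the variables `ε, η`). Set `ε_i := 0` for `i ∉ S`
and `η_j := 0` for `j ∉ T` (this does not change the coefficient). Then, by orthogonality and `a ≠ b`, `L` becomes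
`[b∈S] |e_b|² ε_b + [a∈T] |e_a|² η_a + ∑_(i∈S∩T) |e_i|² ε_i η_i`, a sum of terms indexed by the elements of
`(insert a S) ∩ (insert b T)` (`a ∉ S`, `b ∉ T`), of which there are fewer than `E`. Each term is a multiple of a
variable; in the expansion of `L^E` (multinomial, or pigeonhole) every product contains one of the terms at
least twice, so is divisible by the square of a variable. So `L^E Q` is in the ideal generated by the squares of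
the variables and its coefficient at the squarefree monomial is `0`. -/
def Q_CROSS : Prop :=
  ∀ (m N E : ℕ) (c c' : Fin (N + 1) → MvPolynomial (Fin m) ℂ), 2 ≤ m →
    (∀ v, (lf v) ^ E ∣ hfc c (ev c' v)) →
    ∀ e : Fin m → Fin m → ℂ, (∀ i j, i ≠ j → ∑ l, e i l * conj (e j l) = 0) →
    ∀ (a b : Fin m) (S T : Finset (Fin m)), a ≠ b → a ∉ S → b ∉ T →
      (insert a S ∩ insert b T).card < E → hf (dv e a S c) (dv e b T c') = 0

/-- **Q_EXP** (expansion, by leading monomials and the inequality of Pluennecke).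

PROOF. `g = 0` is trivial; let `g ≥ 1`. Let `T := span {(∏_(i∈S) X_i) P_s | S ∈ B.powersetCard k, s < g}`, a finite
dimensional space. It is enough to show `ρ g ≤ dim T` (then choose `ρ g` independent ones among the spanning
vectors). Fix a monomial order on `Fin m →₀ ℕ` (`MonomialOrder.lex`). For a finite dimensional space `V` of
polynomials let `E(V) := {degree p | 0 ≠ p ∈ V}`. `E(V)` is finite with exactly `dim V` elements: elements with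
different leading monomials are independent, so any finite subset of `E(V)` has at most `dim V` elements, and the
map `V → ℂ^(E(V))`, `p ↦ (coeff_e p)_e`, is injective. Let `A := E(span P)`, `|A| = g`, and
`Σ := {∑_(i∈S) e_i | S ∈ B.powersetCard k}`. `A + Σ ⊆ E(T)` (degrees add). So `|A + Σ| ≤ dim T`. Suppose
`dim T < ρ g`. Embed `Fin m →₀ ℕ` in the group `Fin m → ℤ`. `Finset.pluennecke_ruzsa_inequality_nsmul_add`
(or the name of the additive version of `Finset.pluennecke_ruzsa_inequality_pow_mul`,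
`Mathlib/Combinatorics/Additive/PluenneckeRuzsa.lean`): `|j Σ| ≤ (|A + Σ|/|A|)^j |A| ≤ ρ^j g`. But `j Σ` contains
the indicator vectors of all `j k`-element subsets of `B` (a set with `j k` elements is the disjoint union of `j`
sets with `k` elements), so `|j Σ| ≥ C(|B|, j k)`: contradiction. -/
def Q_EXP : Prop :=
  ∀ (m k j g ρ : ℕ) (B : Finset (Fin m)) (P : Fin g → MvPolynomial (Fin m) ℂ),
    LinearIndependent ℂ P → ρ ^ j * g < B.card.choose (j * k) →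
    ∃ J : Fin (ρ * g) → Finset (Fin m) × Fin g, (∀ r, (J r).1 ∈ B.powersetCard k) ∧
      LinearIndependent ℂ fun r => (∏ i ∈ (J r).1, X i) * P (J r).2

/-- **Q_ARC** (arcs of length less than one half).

PROOF. Take the arcs `B a := {i | (a < i ∧ i ≤ a + h) ∨ i + m ≤ a + h}` (values in `ℕ`), the `h` residues following
`a` modulo `m` (`card`: image of `range h` under `t ↦ (a + 1 + t) mod m`, injective as `h < m`). If `b ∈ B a` and
`a ∈ B b` (`a ≠ b`) then `2 h ≥ m`, contradiction (`omega`). -/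
def Q_ARC : Prop :=
  ∀ (m h : ℕ), 2 * h < m → ∃ B : Fin m → Finset (Fin m), (∀ a, (B a).card = h) ∧
    (∀ a, a ∉ B a) ∧ ∀ a b, a ≠ b → b ∈ B a → a ∉ B b

/-- **Q_NUM** (numerics).

PROOF. `h := (m-1)/2`, so `2 h + 2 ≥ m`, `h + 1 ≥ 8 K²`. (1) `k = 2`. It is enough that
`(K-1)^K C(m+K+1, K+1) ≤ m C(h, 2K)`, i.e. (multiply by `(2K)!`, `(2K)!/(K+1)! = ∏_(i=K+2)^(2K) i ≤ (2K)^(K-1)`,
`∏_(i=1)^(K+1) (m+i) ≤ (m+K+1)^(K+1)`, `∏_(i<2K) (h-i) ≥ (h-2K+1)^(2K)`)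
`(K-1)^K (m+K+1)^(K+1) (2K)^(K-1) ≤ m (h-2K+1)^(2K)`. As `2K ≤ m/8` and `K+1 ≤ m/8`: `8 (h-2K+1) ≥ 3 m`,
`8 (m+K+1) ≤ 9 m`. So it is enough that `(K-1)^K (9/8)^(K+1) (2K)^(K-1) ≤ (9/64)^K m^K`; as `m ≥ 16 K²` the right side
is `≥ (9/4)^K K^(2K)`, and the left side is `≤ K^(2K-1) 2^(K-1) (9/8)^(K+1) = (9/4)^K K^(2K) (9/16)/K`.
(2) `k → k+1` for `2 ≤ k < K`: for `r + 1 ≤ K²`, `h - r ≥ 7 K² ≥ 7 (r+1)`, so `C(h,r+1) ≥ 7 C(h,r)`
(`Nat.choose_succ_right_eq`), so `C(h, K k + K) ≥ 7^K C(h, K k) ≥ 2^K C(h, K k)`, while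
`((K-1) k)^K ≤ 2^K ((K-1)(k-1))^K`. -/
def Q_NUM : Prop :=
  ∀ K m g k : ℕ, 2 ≤ K → 16 * K ^ 2 ≤ m → g * m < (m + (K + 1)).choose m → 2 ≤ k → k ≤ K →
    ((K - 1) * (k - 1)) ^ K * g < ((m - 1) / 2).choose (K * k)

end Pool.Agent.Helper66.DC
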