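import Mathlib
import Pool.Agent.Helper69.DC.Defs
import Pool.Agent.Helper69.DC.Defs2
import Pool.Agent.Helper69.DC.Goals
import Pool.Agent.Helper69.DC.Goals2
import Pool.Agent.Helper69.DC.Asm
import Pool.Agent.Helper69.DC.Asm2
import Pool.Agent.Helper39.DC.CCOP
import Pool.Agent.Helper66.DC.Defs3
import Pool.Agent.Helper66.DC.Goals3

/-!
Assembly of the third stage, part 1: the bound `m d ≤ a (N - 1)` in the larger range (Siegel form).
-/

namespace Pool.Agent.Helper66.DC

open MvPolynomial Finset ComplexConjugate Pool.Agent.Helper69.DC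

/-! ### Linearity -/

lemma gam_add {ι : Type*} (h h' : MvPolynomial ι ℂ) (i : ℕ) :
    gam (h + h') i = gam h i + gam h' i := by
  simp [gam]

lemma gam_sub {ι : Type*} (h h' : MvPolynomial ι ℂ) (i : ℕ) :
    gam (h - h') i = gam h i - gam h' i := by
  simp [gam]

lemma gam_C_mul {ι : Type*} (c : ℂ) (h : MvPolynomial ι ℂ) (i : ℕ) :
    gam (C c * h) i = C c * gam h i := by
  unfold gam
  rw [map_mul, aeval_C, IsScalarTower.algebraMap_apply ℂ (MvPolynomial (ι ⊕ ι) ℂ)
    (Polynomial (MvPolynomial (ι ⊕ ι) ℂ)), Polynomial.algebraMap_apply]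
  simp [MvPolynomial.algebraMap_eq]

lemma gam_sum {ι κ : Type*} (s : Finset κ) (h : κ → MvPolynomial ι ℂ) (i : ℕ) :
    gam (∑ k ∈ s, h k) i = ∑ k ∈ s, gam (h k) i := by
  unfold gam
  rw [map_sum, Polynomial.finsetSum_coeff]

lemma gam_hfc {m N : ℕ} (g : Fin (N + 1) → MvPolynomial (Fin m) ℂ) (u : Fin (N + 1) → ℂ) (i : ℕ) :
    gam (hfc g u) i = C (conj (u 0)) * gam (g 0) i -
      ∑ j : Fin N, C (conj (u j.succ)) * gam (g j.succ) i := by
  unfold hfc
  rw [gam_sub, gam_C_mul, gam_sum]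
  simp only [gam_C_mul]

lemma eval_hfc {m N : ℕ} (c : Fin (N + 1) → MvPolynomial (Fin m) ℂ) (u : Fin (N + 1) → ℂ)
    (y : Fin m → ℂ) : eval y (hfc c u) = hf (ev c y) u := by
  simp only [hfc, hf, ev, map_sub, map_mul, map_sum, eval_C]
  congr 1
  · ring
  · exact Finset.sum_congr rfl fun j _ => mul_comm _ _

lemma atx_C {m : ℕ} (β : Fin m → ℂ) (c : ℂ) : atx β (C c) = C c := by
  simp [atx, MvPolynomial.algebraMap_eq]

lemma eval_atx {m : ℕ} (β y : Fin m → ℂ) (P : MvPolynomial (Fin m ⊕ Fin m) ℂ) :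
    eval y (atx β P) = eval (Sum.elim β y) P := by
  induction P using MvPolynomial.induction_on with
  | C a => simp [atx]
  | add p q hp hq => simp only [map_add, hp, hq]
  | mul_X p j hp =>
    simp only [map_mul, hp, eval_X]
    congr 1
    rcases j with j | j <;> simp [atx]

lemma atx_hfc {m N : ℕ} (g : Fin (N + 1) → MvPolynomial (Fin m) ℂ) (β : Fin m → ℂ) (d : ℕ)
    (l : ℕ → MvPolynomial (Fin m ⊕ Fin m) ℂ) (u : Fin (N + 1) → ℂ) :
    atx β (∑ i ∈ range d, l i * gam (hfc g u) (i + 1)) = hfc (cf g β d l) u := by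
  have h0 : C (conj (u 0)) * atx β (∑ i ∈ range d, l i * gam (g 0) (i + 1)) =
      atx β (C (conj (u 0)) * ∑ i ∈ range d, l i * gam (g 0) (i + 1)) := by
    rw [map_mul, atx_C]
  have h1 : ∀ j : Fin N, C (conj (u j.succ)) *
      atx β (∑ i ∈ range d, l i * gam (g j.succ) (i + 1)) =
      atx β (C (conj (u j.succ)) * ∑ i ∈ range d, l i * gam (g j.succ) (i + 1)) := by
    intro j
    rw [map_mul, atx_C]
  have h2 : hfc (cf g β d l) u = C (conj (u 0)) * atx β (∑ i ∈ range d, l i * gam (g 0) (i + 1)) -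
      ∑ j : Fin N, C (conj (u j.succ)) * atx β (∑ i ∈ range d, l i * gam (g j.succ) (i + 1)) := rfl
  rw [h2, h0]
  simp only [h1]
  rw [← map_sum, ← map_sub]
  congr 1
  simp only [Finset.mul_sum]
  rw [Finset.sum_comm, ← Finset.sum_sub_distrib]
  refine Finset.sum_congr rfl fun i _ => ?_
  rw [gam_hfc, mul_sub, Finset.mul_sum]
  congr 1
  · ring
  · exact Finset.sum_congr rfl fun j _ => by ring

lemma win_hfc {m N : ℕ} {g : Fin (N + 1) → MvPolynomial (Fin m) ℂ} {d q : ℕ}
    {l : ℕ → MvPolynomial (Fin m ⊕ Fin m) ℂ} (hl : Win g d q l) (u : Fin (N + 1) → ℂ) :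
    ∀ s < q, ∑ i ∈ range (d + 1), l (i + s) * gam (hfc g u) i = 0 := by
  intro s hs
  simp only [gam_hfc, mul_sub, Finset.mul_sum]
  rw [Finset.sum_sub_distrib, Finset.sum_comm]
  have h0 : ∑ i ∈ range (d + 1), l (i + s) * (C (conj (u 0)) * gam (g 0) i) = 0 := by
    have := hl s hs 0
    calc _ = C (conj (u 0)) * ∑ i ∈ range (d + 1), l (i + s) * gam (g 0) i := by
          rw [Finset.mul_sum]; exact Finset.sum_congr rfl fun i _ => by ring
      _ = 0 := by rw [this, mul_zero]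
  rw [h0, zero_sub, neg_eq_zero]
  refine Finset.sum_eq_zero fun j _ => ?_
  have := hl s hs j.succ
  calc _ = C (conj (u j.succ)) * ∑ i ∈ range (d + 1), l (i + s) * gam (g j.succ) i := by
        rw [Finset.mul_sum]; exact Finset.sum_congr rfl fun i _ => by ring
    _ = 0 := by rw [this, mul_zero]

/-! ### The vectors `A_j` -/

lemma AJ_eq_gam {m N : ℕ} (f : Fin (N + 1) → MvPolynomial (Fin m ⊕ Unit) ℂ) (β : Fin m → ℂ)
    (a : ℂ) (hnull : Null β a) (v : Fin m → ℂ) (j : ℕ) (k : Fin (N + 1)) :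
    AJ f β a v j k = eval (Sum.elim β v) (gam (gp f β (conj a) k) j) := by
  have key : ∀ P : MvPolynomial (Fin m ⊕ Unit) ℂ,
      (aeval (Sum.elim (fun i => Polynomial.C (β i) + Polynomial.C (v i) * Polynomial.X)
        (fun _ => Polynomial.C a + Polynomial.C (∑ i, v i * conj (β i)) * Polynomial.X)) P :
        Polynomial ℂ) =
      ((aeval (fun j => Polynomial.C (X (Sum.inl j)) + Polynomial.C (X (Sum.inr j)) * Polynomial.X)
        (aeval (Sum.elim (fun i => X i) (fun _ => ∑ i, C (conj (β i)) * X i - C (conj a))) P :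
          MvPolynomial (Fin m) ℂ) : Polynomial (MvPolynomial (Fin m ⊕ Fin m) ℂ))).map
        (eval (Sum.elim β v)) := by
    intro P
    induction P using MvPolynomial.induction_on with
    | C c =>
      rw [MvPolynomial.aeval_C, MvPolynomial.aeval_C, MvPolynomial.algebraMap_eq,
        MvPolynomial.aeval_C]
      change Polynomial.C c = Polynomial.map (MvPolynomial.eval (Sum.elim β v))
        (Polynomial.C (MvPolynomial.C c))
      simp
    | add p q hp hq => simp only [map_add, Polynomial.map_add, hp, hq]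
    | mul_X p i hp =>
      simp only [map_mul, Polynomial.map_mul, hp, MvPolynomial.aeval_X]
      congr 1
      cases i with
      | inl i => simp
      | inr i =>
        simp only [Sum.elim_inr, map_sub, map_sum, map_mul, MvPolynomial.aeval_X,
          Polynomial.map_sub, Polynomial.map_sum, Polynomial.map_mul]
        have hC : ∀ c : ℂ, Polynomial.map (MvPolynomial.eval (Sum.elim β v))
            ((aeval fun j => Polynomial.C (X (Sum.inl j)) + Polynomial.C (X (Sum.inr j)) *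
              Polynomial.X) (C c : MvPolynomial (Fin m) ℂ) :
              Polynomial (MvPolynomial (Fin m ⊕ Fin m) ℂ)) = Polynomial.C c := by
          intro c
          rw [MvPolynomial.aeval_C]
          change Polynomial.map (MvPolynomial.eval (Sum.elim β v))
            (Polynomial.C (MvPolynomial.C c)) = Polynomial.C c
          simp
        simp only [hC]
        simp only [Polynomial.map_add, Polynomial.map_mul, Polynomial.map_C, Polynomial.map_X,
          MvPolynomial.eval_X, Sum.elim_inl, Sum.elim_inr, mul_add, Finset.sum_add_distrib]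
        have hn : a = ∑ i, conj (β i) * β i - conj a := by
          have : ∑ i, conj (β i) * β i = ∑ i, β i * conj (β i) :=
            Finset.sum_congr rfl fun i _ => mul_comm _ _
          rw [this, ← hnull]
          ring
        have h1 : (Polynomial.C a : Polynomial ℂ) =
            ∑ i, Polynomial.C (conj (β i)) * Polynomial.C (β i) - Polynomial.C (conj a) := by
          conv_lhs => rw [hn]
          rw [Polynomial.C_sub]
          simp
        rw [h1, Finset.sum_mul]
        have h2 : ∀ i, Polynomial.C (v i) * Polynomial.C (conj (β i)) * Polynomial.X =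
            Polynomial.C (conj (β i)) * (Polynomial.C (v i) * Polynomial.X) := fun i => by ring
        simp only [h2]
        ring
  have h1 := congrArg (fun p => Polynomial.coeff p j) (key (f k))
  simp only [Polynomial.coeff_map] at h1
  exact h1

lemma ev_cf {m N : ℕ} (f : Fin (N + 1) → MvPolynomial (Fin m ⊕ Unit) ℂ) (β : Fin m → ℂ)
    (a : ℂ) (hnull : Null β a) (d : ℕ) (l : ℕ → MvPolynomial (Fin m ⊕ Fin m) ℂ) (y : Fin m → ℂ) :
    ev (cf (gp f β (conj a)) β d l) y =
      ∑ i ∈ range d, eval (Sum.elim β y) (l i) • AJ f β a y (i + 1) := by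
  funext k
  simp only [ev, cf, eval_atx, map_sum, map_mul, Finset.sum_apply, Pi.smul_apply, smul_eq_mul,
    AJ_eq_gam f β a hnull]

lemma win_eval {m N : ℕ} (f : Fin (N + 1) → MvPolynomial (Fin m ⊕ Unit) ℂ) (β : Fin m → ℂ)
    (a : ℂ) (hnull : Null β a) {d q : ℕ} {l : ℕ → MvPolynomial (Fin m ⊕ Fin m) ℂ}
    (hl : Win (gp f β (conj a)) d q l) (y : Fin m → ℂ) :
    ∀ s < q, ∑ j ∈ range (d + 1), eval (Sum.elim β y) (l (j + s)) • AJ f β a y j = 0 := by
  intro s hs
  funext k
  have := congrArg (eval (Sum.elim β y)) (hl s hs k)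
  simpa only [map_sum, map_mul, Finset.sum_apply, Pi.smul_apply, smul_eq_mul,
    AJ_eq_gam f β a hnull, map_zero, Pi.zero_apply] using this

lemma hq_eq_hfc {m N : ℕ} (f : Fin (N + 1) → MvPolynomial (Fin m ⊕ Unit) ℂ) (β : Fin m → ℂ)
    (b : ℂ) (u : Fin (N + 1) → ℂ) : hq f β b u = hfc (gp f β b) u := rfl

lemma hfc_A0 {m N d : ℕ} {f : Fin (N + 1) → MvPolynomial (Fin m ⊕ Unit) ℂ} (hf' : SMap m N d f)
    (β : Fin m → ℂ) (a : ℂ) : hfc (gp f β (conj a)) (fv f β a) = 0 := by
  rw [← hq_eq_hfc]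
  apply MvPolynomial.funext
  intro η
  rw [eval_hq, map_zero]
  apply hf'.orth
  rw [sub_add_cancel]
  exact Finset.sum_congr rfl fun i _ => mul_comm _ _

lemma totalDegree_hfc_le {m N d : ℕ} {f : Fin (N + 1) → MvPolynomial (Fin m ⊕ Unit) ℂ}
    (hf' : SMap m N d f) (β : Fin m → ℂ) (b : ℂ) (u : Fin (N + 1) → ℂ) :
    (hfc (gp f β b) u).totalDegree ≤ d := by
  have hg : ∀ k, (gp f β b k).totalDegree ≤ d := by
    intro k
    apply Pool.Agent.Helper39.DC.Ccop.totalDegree_aeval_le _ (hf'.deg k)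
    intro j
    rcases j with j | j
    · simp
    · simp only [Sum.elim_inr]
      refine (totalDegree_sub _ _).trans (max_le ?_ (by simp))
      refine totalDegree_finsetSum_le fun i _ => ?_
      refine (totalDegree_mul _ _).trans ?_
      simp
  unfold hfc
  have hCg : ∀ (c : ℂ) k, (C c * gp f β b k).totalDegree ≤ d := by
    intro c k
    refine (totalDegree_mul _ _).trans ?_
    rw [totalDegree_C, zero_add]
    exact hg k
  refine (totalDegree_sub _ _).trans (max_le (hCg _ _) ?_)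
  exact totalDegree_finsetSum_le fun j _ => hCg _ _

/-- The divisibility of the pairing of two families. -/
lemma pair_dvd (hEI : H_EI) (hW : J_W) {m N d q q' : ℕ}
    {f : Fin (N + 1) → MvPolynomial (Fin m ⊕ Unit) ℂ} (hf' : SMap m N d f)
    (β : Fin m → ℂ) (a : ℂ) (hnull : Null β a) {l l' : ℕ → MvPolynomial (Fin m ⊕ Fin m) ℂ}
    (hl : Win (gp f β (conj a)) d q l) (hl' : Win (gp f β (conj a)) d q' l') (v : Fin m → ℂ) :
    lf v ^ (q' + 1 + q) ∣ hfc (cf (gp f β (conj a)) β d l)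
      (ev (cf (gp f β (conj a)) β d l') v) := by
  rw [← atx_hfc]
  apply hW m d (q' + 1) q β (fun i => conj (v i)) (hfc (gp f β (conj a)) _) l (by omega)
    (totalDegree_hfc_le hf' β _ _)
  · rw [ev_cf f β a hnull]
    exact hEI m N d f hf' β a hnull v q' _ (win_eval f β a hnull hl' v)
  · exact win_hfc hl _

lemma self_dvd (hEI : H_EI) {m N d q : ℕ}
    {f : Fin (N + 1) → MvPolynomial (Fin m ⊕ Unit) ℂ} (hf' : SMap m N d f)
    (β : Fin m → ℂ) (a : ℂ) (hnull : Null β a) {l : ℕ → MvPolynomial (Fin m ⊕ Fin m) ℂ}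
    (hl : Win (gp f β (conj a)) d q l) (y : Fin m → ℂ) :
    xp β y ^ (q + 1) ∣ hfc (gp f β (conj a)) (ev (cf (gp f β (conj a)) β d l) y) := by
  rw [ev_cf f β a hnull]
  exact hEI m N d f hf' β a hnull y q _ (win_eval f β a hnull hl y)

/-! ### The bound -/

/-- From trivial windows to the bound. -/
lemma bound_of_windows (hDQ : H_DQ) (hCNTR : H_CNTR) {m N d q : ℕ}
    {f : Fin (N + 1) → MvPolynomial (Fin m ⊕ Unit) ℂ} (hf' : SMap m N d f)
    (β : Fin m → ℂ) (a : ℂ) (hnull : Null β a) (hA0 : fv f β a ≠ 0) (v : Fin m → ℂ) (hd : 1 ≤ d)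
    (hwin : ∀ κ : ℕ → ℂ, (∀ l < q, ∑ j ∈ range (d + 1), κ (j + l) • AJ f β a v j = 0) →
      ∀ j < d + q, κ j = 0) : m * d ≤ q * (N - 1) := by
  have h1 := hDQ d (N + 1) q (fun j => AJ f β a v j) hwin
  have h2 := hCNTR m N d f hf' β a hnull hA0 v
  set r := Module.finrank ℂ (Submodule.span ℂ (Set.range fun j : Fin (d + 1) => AJ f β a v j))
    with hr
  have h3 : d ≤ q * (r - 1) := by
    rcases Nat.eq_zero_or_pos r with h0 | h0
    · rw [h0] at h1
      omega
    · obtain ⟨r', hr'⟩ : ∃ r', r = r' + 1 := ⟨r - 1, by omega⟩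
      rw [hr'] at h1 ⊢
      rw [Nat.mul_add, mul_one] at h1
      rw [Nat.add_sub_cancel]
      omega
  have h4 : m * d ≤ q * (m * (r - 1)) := by
    calc m * d ≤ m * (q * (r - 1)) := Nat.mul_le_mul_left m h3
      _ = q * (m * (r - 1)) := by ring
  have h5 : m * (r - 1) ≤ N - 1 := by omega
  exact h4.trans (Nat.mul_le_mul_left q h5)

/-- **Theorem C'** in Siegel form. -/
theorem siegel_CP (hHF2 : G_HF2) (hAJO : G_AJO) (hEI : H_EI) (hSQ : H_SQ) (hDQ : H_DQ)
    (hTX : H_TX) (hGOODW : H_GOODW) (hCNTR : H_CNTR) (hJ1 : H_J1)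
    (hGOODB : J_GOODB) (hW : J_W) (hDIM : J_DIM) (hJW : J_JW) (hCNTJ : J_CNTJ) {m N d a : ℕ}
    (f : Fin (N + 1) → MvPolynomial (Fin (m + 1) ⊕ Unit) ℂ) (hf' : SMap (m + 1) N d f)
    (hd : 1 ≤ d) (ha : 1 ≤ a)
    (hN : N < (m + 1 + a).choose (m + 1) + (m + (2 * a + 1)).choose m) :
    (m + 1) * d ≤ a * (N - 1) := by
  classical
  by_cases hP : ∃ P : MvPolynomial (Fin (m + 1)) (MvPolynomial (V3 (m + 1)) ℂ),
      P ≠ 0 ∧ P.totalDegree ≤ a + 1 ∧ IsPDE f P
  · obtain ⟨P, hP0, hPd, hP⟩ := hP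
    have hi : 2 ≤ P.totalDegree := by
      by_contra hlt
      exact hP0 (hJ1 (m + 1) N d f hf' (by omega) hd P (by omega) hP)
    have h := core hHF2 hAJO hEI hSQ hDQ hTX hGOODW hCNTR f hf' (by omega) P hP0 hP hi
    refine h.trans (Nat.mul_le_mul_right _ ?_)
    omega
  have hno : ∀ P : MvPolynomial (Fin (m + 1)) (MvPolynomial (V3 (m + 1)) ℂ),
      P.totalDegree ≤ a → IsPDE f P → P = 0 := by
    intro P hPd hP'
    by_contra h0
    exact hP ⟨P, h0, by omega, hP'⟩
  obtain ⟨W, hW0, hWJ⟩ := hJW (m + 1) N a f hno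
  have hW1 : (rename Sum.inl W : MvPolynomial (V3 (m + 1) ⊕ Fin (m + 1)) ℂ) ≠ 0 := by
    intro h0
    exact hW0 (rename_injective _ Sum.inl_injective (by rw [h0, map_zero]))
  obtain ⟨β, a0, hnull, hA0, e, -, -, he⟩ := hGOODB (m + 1) N d a f hf' (by omega) _ 1 hW1
    one_ne_zero
  obtain ⟨hgood, hWne, -⟩ := he 0
  rw [eval_rename] at hWne
  have hjet := hWJ β (conj a0) hWne
  set v := e 0 with hv
  obtain ⟨hO1, hO2, hO3, hO4, hO5⟩ := hAJO (m + 1) N d f hf' β a0 hnull
  apply bound_of_windows hDQ hCNTR hf' β a0 hnull hA0 v hd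
  apply hSQ d (N + 1) a (fun j => AJ f β a0 v j) ha
  · show AJ f β a0 v 0 ≠ 0
    rw [hO3 v]
    exact hA0
  · exact hgood.top
  · intro t
    have := hgood.nz t
    rwa [← hO5 v t] at this
  intro κ hκ
  obtain ⟨l, hlW, hlv⟩ := hgood.ext κ hκ
  set g := gp f β (conj a0) with hg
  set c := cf g β d l with hc
  have hcv : ev c v = ∑ j ∈ range d, κ j • AJ f β a0 v (j + 1) := by
    rw [hc, hg, ev_cf f β a0 hnull]
    refine Finset.sum_congr rfl fun i hi => ?_
    rw [hlv i (by have := Finset.mem_range.1 hi; omega)]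
  have hcA0 : ∀ y, hf (ev c y) (fv f β a0) = 0 := by
    intro y
    rw [hc, hg, ev_cf f β a0 hnull, hf_sum_left]
    refine Finset.sum_eq_zero fun j _ => ?_
    rw [hf_smul_left, hO2, mul_zero]
  have hrk : Module.finrank ℂ (Submodule.span ℂ (insert (fv f β a0) (Set.range (ev c)))) +
      (m + 1 + a).choose (m + 1) ≤ N + 1 := by
    apply hCNTJ (m + 1) N a β g hjet
    intro u hu
    rcases hu with hu | ⟨y, hy⟩
    · refine ⟨0, ?_⟩
      rw [hu, hg, hfc_A0 hf' β a0]
      exact dvd_zero _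
    · refine ⟨y, ?_⟩
      rw [← hy]
      exact self_dvd hEI hf' β a0 hnull hlW y
  have hzero := hDIM m N (2 * a + 1) (fv f β a0) c hA0 hcA0
    (fun v' => by
      have := pair_dvd hEI hW hf' β a0 hnull hlW hlW v'
      have h2 : a + 1 + a = 2 * a + 1 := by ring
      rwa [h2] at this)
    (by omega) v
  obtain ⟨x, hx⟩ := hHF2 N (fv f β a0) (ev c v) hA0 (hf'.orth β a0 β a0 hnull) hzero (hcA0 v)
  refine ⟨x, ?_⟩
  show ∑ j ∈ range d, κ j • AJ f β a0 v (j + 1) = x • AJ f β a0 v 0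
  rw [hO3 v, ← hcv]
  exact hx

end Pool.Agent.Helper66.DC
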