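import Mathlib
import Pool.Agent.Helper69.DC.Defs
import Pool.Agent.Helper69.DC.Defs2
import Pool.Agent.Helper69.DC.Goals
import Pool.Agent.Helper69.DC.Goals2
import Pool.Agent.Helper69.DC.Asm
import Pool.Agent.Helper69.DC.Asm2
import Pool.Agent.Helper66.DC.Defs3
import Pool.Agent.Helper66.DC.Goals3
import Pool.Agent.Helper66.DC.Asm4

/-!
Assembly of the third stage, part 2: the sharp bound `m d + 1 ≤ N` for `m ≥ 4`, `N < C(m+3,3)`
(Siegel form).
-/

namespace Pool.Agent.Helper66.DC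

open MvPolynomial Finset ComplexConjugate Pool.Agent.Helper69.DC

/-! ### Sesquilinearity -/

lemma hf_conj {N : ℕ} (x y : Fin (N + 1) → ℂ) : hf x y = conj (hf y x) := by
  unfold hf
  simp only [map_sub, map_mul, map_sum, Complex.conj_conj]
  congr 1
  · ring
  · exact Finset.sum_congr rfl fun j _ => by ring

lemma hf_zero_iff {N : ℕ} (x y : Fin (N + 1) → ℂ) : hf x y = 0 ↔ hf y x = 0 := by
  rw [hf_conj x y]
  simp

lemma hf_smul_right {N : ℕ} (c : ℂ) (x z : Fin (N + 1) → ℂ) : hf x (c • z) = conj c * hf x z := by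
  rw [hf_conj, hf_smul_left, map_mul, ← hf_conj]

lemma hf_sum_right {N : ℕ} {ι : Type*} (s : Finset ι) (x : ι → Fin (N + 1) → ℂ)
    (z : Fin (N + 1) → ℂ) : hf z (∑ i ∈ s, x i) = ∑ i ∈ s, hf z (x i) := by
  rw [hf_conj, hf_sum_left, map_sum]
  exact Finset.sum_congr rfl fun i _ => (hf_conj z (x i)).symm

/-- `hf x y = 0` on spans. -/
lemma hf_span {N : ℕ} {S T : Set (Fin (N + 1) → ℂ)} (h : ∀ x ∈ S, ∀ y ∈ T, hf x y = 0) :
    ∀ x ∈ Submodule.span ℂ S, ∀ y ∈ Submodule.span ℂ T, hf x y = 0 := by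
  have h1 : ∀ y ∈ T, ∀ x ∈ Submodule.span ℂ S, hf x y = 0 := by
    intro y hy x hx
    induction hx using Submodule.span_induction with
    | mem x hx => exact h x hx y hy
    | zero => exact hf_zero_left y
    | add x x' _ _ hx hx' => rw [hf_add_left, hx, hx', add_zero]
    | smul c x _ hx => rw [hf_smul_left, hx, mul_zero]
  intro x hx y hy
  induction hy using Submodule.span_induction with
  | mem y hy => exact h1 y hy x hx
  | zero => rw [hf_conj, hf_zero_left, map_zero]
  | add y y' _ _ hy hy' => rw [hf_conj, hf_add_left, map_add, ← hf_conj, ← hf_conj, hy, hy', add_zero]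
  | smul c y _ hy => rw [hf_smul_right, hy, mul_zero]

/-! ### Linear algebra -/

lemma finrank_sup_ge {V : Type*} [AddCommGroup V] [Module ℂ V] [FiniteDimensional ℂ V]
    (U : Submodule ℂ V) {k : ℕ} (y : Fin k → V)
    (h : ∀ lam : Fin k → ℂ, ∑ s, lam s • y s ∈ U → lam = 0) :
    Module.finrank ℂ U + k ≤ Module.finrank ℂ (U ⊔ Submodule.span ℂ (Set.range y) : Submodule ℂ V) := by
  classical
  let φ : (U × (Fin k → ℂ)) →ₗ[ℂ] V :=
    (U.subtype).coprod (Fintype.linearCombination ℂ y)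
  have hφ : ∀ p : U × (Fin k → ℂ), φ p = (p.1 : V) + ∑ s, p.2 s • y s := by
    intro p
    simp [φ, Fintype.linearCombination_apply]
  have hφm : ∀ p : U × (Fin k → ℂ), φ p ∈ (U ⊔ Submodule.span ℂ (Set.range y) : Submodule ℂ V) := by
    intro p
    rw [hφ]
    apply Submodule.add_mem_sup p.1.2
    exact Submodule.sum_mem _ fun s _ => Submodule.smul_mem _ _ (Submodule.subset_span ⟨s, rfl⟩)
  let ψ := φ.codRestrict (U ⊔ Submodule.span ℂ (Set.range y)) hφm
  have hinj : Function.Injective ψ := by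
    rw [← LinearMap.ker_eq_bot, LinearMap.ker_eq_bot']
    intro p hp
    have h1 : φ p = 0 := congrArg Subtype.val hp
    rw [hφ] at h1
    have h2 : ∑ s, p.2 s • y s ∈ U := by
      have : ∑ s, p.2 s • y s = -(p.1 : V) := by
        rw [eq_neg_iff_add_eq_zero, add_comm]
        exact h1
      rw [this]
      exact U.neg_mem p.1.2
    have h3 := h p.2 h2
    rw [h3] at h1
    have h4 : (p.1 : V) = 0 := by simpa using h1
    exact Prod.ext (Subtype.ext h4) h3
  have h5 := LinearMap.finrank_le_finrank_of_injective hinj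
  rw [Module.finrank_prod, Module.finrank_fin_fun] at h5
  exact h5

/-! ### Linearity of the families -/

lemma cf_sum {m N k : ℕ} (g : Fin (N + 1) → MvPolynomial (Fin m) ℂ) (β : Fin m → ℂ) (d : ℕ)
    (l : Fin k → ℕ → MvPolynomial (Fin m ⊕ Fin m) ℂ) (lam : Fin k → ℂ) (r : Fin (N + 1)) :
    cf g β d (fun i => ∑ s, C (lam s) * l s i) r = ∑ s, C (lam s) * cf g β d (l s) r := by
  unfold cf
  have h0 : ∀ s, C (lam s) * atx β (∑ i ∈ range d, l s i * gam (g r) (i + 1)) =
      atx β (C (lam s) * ∑ i ∈ range d, l s i * gam (g r) (i + 1)) := by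
    intro s
    rw [map_mul, atx_C]
  simp only [h0]
  rw [← map_sum]
  congr 1
  simp only [Finset.mul_sum, Finset.sum_mul]
  rw [Finset.sum_comm]
  refine Finset.sum_congr rfl fun s _ => Finset.sum_congr rfl fun i _ => ?_
  ring

lemma win_sum {m N k d q : ℕ} {g : Fin (N + 1) → MvPolynomial (Fin m) ℂ}
    {l : Fin k → ℕ → MvPolynomial (Fin m ⊕ Fin m) ℂ} (hl : ∀ s, Win g d q (l s))
    (lam : Fin k → ℂ) : Win g d q (fun i => ∑ s, C (lam s) * l s i) := by
  intro t ht r
  simp only [Finset.sum_mul]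
  rw [Finset.sum_comm]
  refine Finset.sum_eq_zero fun s _ => ?_
  have := hl s t ht r
  calc _ = C (lam s) * ∑ i ∈ range (d + 1), l s (i + t) * gam (g r) i := by
        rw [Finset.mul_sum]; exact Finset.sum_congr rfl fun i _ => by ring
    _ = 0 := by rw [this, mul_zero]

lemma d2_sum {m k : ℕ} (u u' v : Fin m → ℂ) (P : Fin k → MvPolynomial (Fin m) ℂ)
    (lam : Fin k → ℂ) : d2 u u' v (∑ s, C (lam s) * P s) = ∑ s, lam s * d2 u u' v (P s) := by
  unfold d2
  simp only [map_sum, pderiv_C_mul, map_mul, eval_C, Finset.mul_sum]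
  have h1 : ∀ p : Fin m, ∑ r, ∑ s, u p * u' r * (lam s * eval v (pderiv p (pderiv r (P s)))) =
      ∑ s, ∑ r, u p * u' r * (lam s * eval v (pderiv p (pderiv r (P s)))) :=
    fun p => Finset.sum_comm
  simp only [h1]
  rw [Finset.sum_comm]
  refine Finset.sum_congr rfl fun s _ => Finset.sum_congr rfl fun p _ =>
    Finset.sum_congr rfl fun r _ => ?_
  ring

lemma d2v_sum {m N k : ℕ} (g : Fin (N + 1) → MvPolynomial (Fin m) ℂ) (β : Fin m → ℂ) (d : ℕ)
    (l : Fin k → ℕ → MvPolynomial (Fin m ⊕ Fin m) ℂ) (lam : Fin k → ℂ) (u u' v : Fin m → ℂ) :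
    d2v u u' v (cf g β d (fun i => ∑ s, C (lam s) * l s i)) =
      ∑ s, lam s • d2v u u' v (cf g β d (l s)) := by
  funext r
  simp only [d2v, Finset.sum_apply, Pi.smul_apply, smul_eq_mul]
  rw [cf_sum, d2_sum]

/-- The families at one good direction. -/
lemma families (hHF2 : G_HF2) (hAJO : G_AJO) (hEI : H_EI) (hCL : J_CL) {m N d : ℕ}
    (hm : 2 ≤ m) {f : Fin (N + 1) → MvPolynomial (Fin m ⊕ Unit) ℂ} (hf' : SMap m N d f)
    (β : Fin m → ℂ) (a : ℂ) (hnull : Null β a) (hA0 : fv f β a ≠ 0) (v u u' : Fin m → ℂ)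
    (hv : v ≠ 0) (hu : u ≠ 0) (hu' : u' ≠ 0) (huv : ∑ i, u i * conj (v i) = 0)
    (hu'v : ∑ i, u' i * conj (v i) = 0) (hgood : Good f d 1 β a v)
    (hkill : ∀ c, xp β v ^ 3 ∣ hq f β (conj a) c → hq f β (conj a) c = 0)
    (hwin2 : ∀ κ : ℕ → ℂ, (∀ l < 2, ∑ j ∈ range (d + 1), κ (j + l) • AJ f β a v j = 0) →
      ∀ j < d + 2, κ j = 0) :
    ∃ (k : ℕ) (l : Fin k → ℕ → MvPolynomial (Fin m ⊕ Fin m) ℂ),
      (∀ s, Win (gp f β (conj a)) d 1 (l s)) ∧
      Module.finrank ℂ (Submodule.span ℂ (Set.range fun j : Fin (d + 1) => AJ f β a v j)) + k =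
        d + 1 ∧
      ∀ lam : Fin k → ℂ, (∑ s, lam s • d2v u u' v (cf (gp f β (conj a)) β d (l s))) ∈
        Submodule.span ℂ (Set.range fun j : Fin (d + 1) => AJ f β a v j) → lam = 0 := by
  classical
  obtain ⟨hO1, hO2, hO3, hO4, hO5⟩ := hAJO m N d f hf' β a hnull
  set R := Fintype.linearCombination ℂ (fun j : Fin (d + 1) => AJ f β a v j) with hR
  have hRange : LinearMap.range R =
      Submodule.span ℂ (Set.range fun j : Fin (d + 1) => AJ f β a v j) :=
    Fintype.range_linearCombination ℂ _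
  set K := LinearMap.ker R with hK
  let b := Module.finBasis ℂ K
  have hb : ∀ s, ∑ j : Fin (d + 1), (b s : Fin (d + 1) → ℂ) j • AJ f β a v j = 0 := by
    intro s
    have h1 : R (b s : Fin (d + 1) → ℂ) = 0 := LinearMap.mem_ker.1 (b s).2
    rw [hR, Fintype.linearCombination_apply] at h1
    exact h1
  let κ : Fin (Module.finrank ℂ K) → ℕ → ℂ := fun s i =>
    if h : i < d + 1 then (b s : Fin (d + 1) → ℂ) ⟨i, h⟩ else 0
  have hκ : ∀ s (i : Fin (d + 1)), κ s i = (b s : Fin (d + 1) → ℂ) i := by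
    intro s i
    show (if h : (i : ℕ) < d + 1 then (b s : Fin (d + 1) → ℂ) ⟨i, h⟩ else 0) = _
    rw [dif_pos i.2]
  have hκw : ∀ s, ∀ l < 1, ∑ j ∈ range (d + 1), κ s (j + l) • AJ f β a v j = 0 := by
    intro s l hl
    have hl0 : l = 0 := by omega
    subst hl0
    rw [← hb s, Finset.sum_range]
    refine Finset.sum_congr rfl fun j _ => ?_
    have h0 : κ s ((j : ℕ) + 0) = (b s : Fin (d + 1) → ℂ) j := hκ s j
    rw [h0]
  choose l hlW hlv using fun s => hgood.ext (κ s) (hκw s)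
  refine ⟨Module.finrank ℂ K, l, hlW, ?_, ?_⟩
  · rw [← hRange, hK, LinearMap.finrank_range_add_finrank_ker, Module.finrank_fin_fun]
  · intro lam hlam
    set g := gp f β (conj a) with hg
    set L : ℕ → MvPolynomial (Fin m ⊕ Fin m) ℂ := fun i => ∑ s, C (lam s) * l s i with hL
    have hLW : Win g d 1 L := win_sum hlW lam
    have hdv : ∀ y, xp β y ^ 2 ∣ hfc g (ev (cf g β d L) y) := fun y =>
      self_dvd hEI hf' β a hnull hLW y
    rw [← d2v_sum] at hlam
    have h3 := (hCL m N β g (cf g β d L) hm hdv v u u' hv hu hu' huv hu'v).2 (by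
      intro w hw l'
      have hA : (fun k => eval (Sum.elim β w) (gam (g k) l')) = AJ f β a w l' := by
        funext k
        rw [AJ_eq_gam f β a hnull]
      rw [hA]
      refine hf_span (S := {AJ f β a w l'}) (T := Set.range fun j : Fin (d + 1) => AJ f β a v j)
        ?_ _ (Submodule.subset_span rfl) _ hlam
      rintro x hx y ⟨j, rfl⟩
      rw [Set.mem_singleton_iff] at hx
      rw [hx]
      exact hO1 w v hw l' j)
    have h4 := hkill _ h3
    rw [ev_cf f β a hnull] at h4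
    obtain ⟨x0, hx0⟩ := c_mem hHF2 hAJO f hf' β a hnull hA0 v
      (fun i => eval (Sum.elim β v) (L i)) h4
    have hw0 := win_eval f β a hnull hLW v 0 (by omega)
    set κ' : ℕ → ℂ := fun i => Nat.casesOn i (-x0) fun i => eval (Sum.elim β v) (L i) with hκ'
    have hκ'z := hwin2 κ' (by
      intro l' hl'
      interval_cases l'
      · rw [Finset.sum_range_succ']
        show ∑ j ∈ range d, eval (Sum.elim β v) (L j) • AJ f β a v (j + 1) +
          (-x0) • AJ f β a v 0 = 0
        rw [hx0, neg_smul, add_neg_cancel]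
      · exact hw0)
    have hLz : ∀ i < d + 1, eval (Sum.elim β v) (L i) = 0 := fun i hi =>
      hκ'z (i + 1) (by omega)
    have hcomb : ∑ s, lam s • b s = 0 := by
      apply Subtype.ext
      funext i
      have h5 := hLz i i.2
      rw [hL] at h5
      simp only [map_sum, map_mul, eval_C] at h5
      simp only [Submodule.coe_sum, Submodule.coe_smul, Finset.sum_apply, Pi.smul_apply,
        smul_eq_mul, Submodule.coe_zero, Pi.zero_apply]
      rw [← h5]
      refine Finset.sum_congr rfl fun s _ => ?_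
      rw [hlv s i (by omega), hκ]
    have hli := b.linearIndependent
    rw [Fintype.linearIndependent_iff] at hli
    funext s
    exact hli lam hcomb s

/-- **The cubic theorem** in Siegel form. -/
theorem siegel_K3 (hHF2 : G_HF2) (hAJO : G_AJO) (hEI : H_EI) (hSQ : H_SQ) (hDQ : H_DQ)
    (hTX : H_TX) (hGOODW : H_GOODW) (hCNTR : H_CNTR) (hPDEC : H_PDEC) (hJ1 : H_J1)
    (hGOODB : J_GOODB) (hW : J_W) (hCL : J_CL) (hCR : J_CR) (hCNTZ : J_CNTZ) {m N d : ℕ}
    (f : Fin (N + 1) → MvPolynomial (Fin m ⊕ Unit) ℂ) (hf' : SMap m N d f) (hm : 4 ≤ m)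
    (hd : 1 ≤ d) (hN : N < (m + 3).choose m) : m * d + 1 ≤ N := by
  classical
  obtain ⟨P, hP0, hPd, hP⟩ := hPDEC m N d 3 f hf' hN
  have hi : 2 ≤ P.totalDegree := by
    by_contra hlt
    exact hP0 (hJ1 m N d f hf' (by omega) hd P (by omega) hP)
  have hmd : 4 ≤ m * d := le_trans hm (Nat.le_mul_of_pos_right m hd)
  rcases Nat.lt_or_ge P.totalDegree 3 with hlt | hge
  · have h := core hHF2 hAJO hEI hSQ hDQ hTX hGOODW hCNTR f hf' (by omega) P hP0 hP hi
    have h2 : P.totalDegree - 1 = 1 := by omega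
    rw [h2, one_mul] at h
    omega
  have h3 : P.totalDegree = 3 := le_antisymm hPd hge
  set S := homogeneousComponent 3 P with hS
  have hS0 : S ≠ 0 := by
    intro h0
    obtain ⟨α, hα, hα2⟩ : ∃ α ∈ P.support, (α.sum fun _ e => e) = 3 := by
      have hne : P.support.Nonempty := by
        rwa [Finset.nonempty_iff_ne_empty, Ne, MvPolynomial.support_eq_empty]
      obtain ⟨α, hα, h⟩ := Finset.exists_mem_eq_sup P.support hne (fun s => s.sum fun _ e => e)
      exact ⟨α, hα, by rw [← h3]; exact h.symm⟩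
    have h1 := congrArg (coeff α) h0
    rw [hS, coeff_homogeneousComponent, if_pos (by rw [← hα2]; rfl), coeff_zero] at h1
    exact (MvPolynomial.mem_support_iff.1 hα) h1
  obtain ⟨c0, w0, hcw⟩ := exists_ev2_ne S hS0
  set W : MvPolynomial (V3 m ⊕ Fin m) ℂ :=
    eval₂ (aeval (fun s => X (Sum.inl s)) : MvPolynomial (V3 m) ℂ →ₐ[ℂ] _).toRingHom
      (fun j => X (Sum.inr j)) S with hWdef
  have hWev : ∀ (c : V3 m → ℂ) (r : Fin m → ℂ),
      eval (Sum.elim c r) W = eval c (ev2 r S) := by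
    intro c r
    rw [hWdef, eval_eval2]
    simp
  have hW0 : W ≠ 0 := by
    intro h0
    apply hcw
    have := hWev c0 w0
    rw [h0, map_zero] at this
    exact this.symm
  obtain ⟨β, a0, hnull, hA0, e, horth, hne, he⟩ := hGOODB m N d 1 f hf' (by omega) 1 W
    one_ne_zero hW0
  obtain ⟨hO1, hO2, hO3, hO4, hO5⟩ := hAJO m N d f hf' β a0 hnull
  have hkill : ∀ a, ∀ c, xp β (e a) ^ 3 ∣ Pool.Agent.Helper69.DC.hq f β (conj a0) c →
      Pool.Agent.Helper69.DC.hq f β (conj a0) c = 0 := by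
    intro a c hc
    have hWne := (he a).2.2
    rw [hWev] at hWne
    apply hTX m 3 β (e a) (MvPolynomial.map (spec β (conj a0)).toRingHom P) _ _
      (pde_hq f P hP β (conj a0) c) hc
    · rw [map_hom, ← hS]
      unfold spec
      rw [eval_ev2_map]
      have hpt : (fun s => eval β ((Sum.elim (fun i => X i)
          (Sum.elim (fun i => C (conj (β i))) fun _ => C (conj a0)) :
          V3 m → MvPolynomial (Fin m) ℂ) s)) = pt β (fun i => conj (β i)) (conj a0) := by
        funext s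
        rcases s with s | s | s <;> simp [pt]
      rw [hpt]
      exact hWne
    · exact (totalDegree_map_le' _ _).trans hPd
  have hwin2 : ∀ a, ∀ κ : ℕ → ℂ,
      (∀ l < 2, ∑ j ∈ range (d + 1), κ (j + l) • AJ f β a0 (e a) j = 0) →
      ∀ j < d + 2, κ j = 0 := fun a =>
    windows hHF2 hAJO hEI hSQ f hf' β a0 hnull hA0 (e a) (he a).1.nz (he a).1.top 2 (by omega)
      (hkill a)
  -- the indices
  let s1 : Fin m → Fin m := fun a =>
    ⟨if a.1 + 1 < m then a.1 + 1 else a.1 + 1 - m, by have := a.2; split_ifs <;> omega⟩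
  let s2 : Fin m → Fin m := fun a =>
    ⟨if a.1 + 2 < m then a.1 + 2 else a.1 + 2 - m, by have := a.2; split_ifs <;> omega⟩
  have hs1v : ∀ a, (s1 a).1 = if a.1 + 1 < m then a.1 + 1 else a.1 + 1 - m := fun a => rfl
  have hs2v : ∀ a, (s2 a).1 = if a.1 + 2 < m then a.1 + 2 else a.1 + 2 - m := fun a => rfl
  have hs1 : ∀ a, s1 a ≠ a := by
    intro a h
    have h1 := congrArg Fin.val h
    have := a.2
    rw [hs1v] at h1
    split_ifs at h1 <;> omega
  have hs2 : ∀ a, s2 a ≠ a := by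
    intro a h
    have h1 := congrArg Fin.val h
    have := a.2
    rw [hs2v] at h1
    split_ifs at h1 <;> omega
  have hs12 : ∀ a, s1 a ≠ s2 a := by
    intro a h
    have h1 := congrArg Fin.val h
    have := a.2
    rw [hs1v, hs2v] at h1
    split_ifs at h1 <;> omega
  have htri : ∀ a b : Fin m, a ≠ b → ({a, s1 a, s2 a} : Finset (Fin m)) ≠ {b, s1 b, s2 b} := by
    intro a b hab h
    have ha : a ∈ ({b, s1 b, s2 b} : Finset (Fin m)) := by rw [← h]; simp
    have hb : b ∈ ({a, s1 a, s2 a} : Finset (Fin m)) := by rw [h]; simp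
    have ha1 : s1 a ∈ ({b, s1 b, s2 b} : Finset (Fin m)) := by rw [← h]; simp
    have hb1 : s1 b ∈ ({a, s1 a, s2 a} : Finset (Fin m)) := by rw [h]; simp
    simp only [Finset.mem_insert, Finset.mem_singleton, Fin.ext_iff, hs1v, hs2v] at ha hb ha1 hb1
    have hab' : a.1 ≠ b.1 := fun h => hab (Fin.ext h)
    have h1 := a.2
    have h2 := b.2
    split_ifs at ha hb ha1 hb1 <;> omega
  -- the families
  have hfam := fun a => families hHF2 hAJO hEI hCL (by omega) hf' β a0 hnull hA0 (e a) (e (s1 a))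
    (e (s2 a)) (hne a) (hne _) (hne _) (horth _ _ (hs1 a)) (horth _ _ (hs2 a)) (he a).1 (hkill a)
    (hwin2 a)
  choose k l hlW hdim hind using hfam
  set g := gp f β (conj a0) with hg
  set Y : ∀ a, Fin (k a) → Fin (N + 1) → ℂ := fun a s =>
    d2v (e (s1 a)) (e (s2 a)) (e a) (cf g β d (l a s)) with hY
  set U : Fin m → Submodule ℂ (Fin (N + 1) → ℂ) := fun a =>
    Submodule.span ℂ (Set.range fun j : Fin (d + 1) => AJ f β a0 (e a) j) with hU
  have hdv : ∀ a s y, xp β y ^ 2 ∣ hfc g (ev (cf g β d (l a s)) y) := fun a s y =>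
    self_dvd hEI hf' β a0 hnull (hlW a s) y
  have hAg : ∀ w l', (fun k => eval (Sum.elim β w) (gam (g k) l')) = AJ f β a0 w l' := by
    intro w l'
    funext k
    rw [AJ_eq_gam f β a0 hnull]
  -- orthogonality of `Y` to the other spaces
  have hAY : ∀ a s w, ∑ i, w i * conj (e a i) = 0 →
      (∑ i, w i * conj (e (s1 a) i)) * (∑ i, w i * conj (e (s2 a) i)) = 0 →
      ∀ l', hf (AJ f β a0 w l') (Y a s) = 0 := by
    intro a s w hw hw2 l'
    have := (hCL m N β g (cf g β d (l a s)) (by omega) (hdv a s) (e a) (e (s1 a)) (e (s2 a))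
      (hne a) (hne _) (hne _) (horth _ _ (hs1 a)) (horth _ _ (hs2 a))).1 w hw hw2 l'
    rwa [hAg] at this
  have hAY2 : ∀ a b s l', a ≠ b → hf (AJ f β a0 (e b) l') (Y a s) = 0 := by
    intro a b s l' hab
    apply hAY a s (e b) (horth _ _ (Ne.symm hab))
    by_cases h1 : b = s1 a
    · have h2 : b ≠ s2 a := fun h => hs12 a (h1 ▸ h)
      rw [horth _ _ h2, mul_zero]
    · rw [horth _ _ h1, zero_mul]
  have hA0Y : ∀ a s, hf (fv f β a0) (Y a s) = 0 := by
    intro a s
    have := hAY a s 0 (by simp) (by simp) 0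
    rwa [hO3] at this
  have hYY : ∀ a b s t, a ≠ b → hf (Y a s) (Y b t) = 0 := by
    intro a b s t hab
    apply hCR m N (cf g β d (l a s)) (cf g β d (l b t)) (by omega) _ e horth a (s1 a) (s2 a) b
      (s1 b) (s2 b) hab (hs12 a) (hs12 b) (htri a b hab)
    intro v
    exact pair_dvd hEI hW hf' β a0 hnull (hlW a s) (hlW b t) v
  apply hCNTZ m N d (fv f β a0) (fun a => U a ⊔ Submodule.span ℂ (Set.range (Y a))) (by omega) hA0
  · intro a
    apply Submodule.mem_sup_left
    apply Submodule.subset_span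
    exact ⟨0, by show AJ f β a0 (e a) 0 = _; rw [hO3]⟩
  · intro a x hx
    rw [hU, ← Submodule.span_union] at hx
    refine hf_span (T := {fv f β a0}) ?_ x hx _ (Submodule.subset_span rfl)
    rintro x hx y hy
    rw [Set.mem_singleton_iff] at hy
    rw [hy]
    rcases hx with ⟨j, rfl⟩ | ⟨s, rfl⟩
    · exact hO2 _ _
    · rw [hf_zero_iff]
      exact hA0Y a s
  · intro a b hab x hx y hy
    simp only [hU] at hx hy
    rw [← Submodule.span_union] at hx hy
    refine hf_span ?_ x hx y hy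
    rintro x hx y hy
    rcases hx with ⟨j, rfl⟩ | ⟨s, rfl⟩ <;> rcases hy with ⟨j', rfl⟩ | ⟨t, rfl⟩
    · exact hO1 _ _ (horth _ _ hab) _ _
    · exact hAY2 b a t j (Ne.symm hab)
    · rw [hf_zero_iff]
      exact hAY2 a b s j' hab
    · exact hYY a b s t hab
  · intro a
    have h5 := finrank_sup_ge (U a) (Y a) (hind a)
    have h6 := hdim a
    exact le_trans (le_of_eq h6.symm) h5

end Pool.Agent.Helper66.DC
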