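import Mathlib
import Pool.Agent.Helper69.DC.Defs
import Pool.Agent.Helper69.DC.Defs2
import Pool.Agent.Helper69.DC.Goals
import Pool.Agent.Helper69.DC.Goals2
import Pool.Agent.Helper69.DC.Asm
import Pool.Agent.Helper69.DC.Asm2
import Pool.Agent.Helper66.DC.Defs3
import Pool.Agent.Helper66.DC.Goals3
import Pool.Agent.Helper66.DC.Asm4
import Pool.Agent.Helper66.DC.Asm5
import Pool.Agent.Helper66.DC.Goals4
import Pool.Agent.Helper81.DC.DIV

/-!
Assembly of the fourth stage: the sharp bound `m d + 1 ≤ N` for `m ≥ 16 K²`, `N < C(m+K+1, K+1)`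
(Siegel form).
-/

namespace Pool.Agent.Helper66.DC

open MvPolynomial Finset ComplexConjugate Pool.Agent.Helper69.DC

/-! ### The space of vectors of order `≥ k` -/

lemma hfc_add_right {m N : ℕ} (c : Fin (N + 1) → MvPolynomial (Fin m) ℂ) (u u' : Fin (N + 1) → ℂ) :
    hfc c (u + u') = hfc c u + hfc c u' := by
  unfold hfc
  simp only [Pi.add_apply, map_add, add_mul, Finset.sum_add_distrib]
  ring

lemma hfc_smul_right {m N : ℕ} (c : Fin (N + 1) → MvPolynomial (Fin m) ℂ) (x : ℂ)
    (u : Fin (N + 1) → ℂ) : hfc c (x • u) = C (conj x) * hfc c u := by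
  unfold hfc
  simp only [Pi.smul_apply, smul_eq_mul, map_mul, mul_sub, Finset.mul_sum]
  congr 1
  · ring
  · exact Finset.sum_congr rfl fun j _ => by ring

lemma hfc_zero_right {m N : ℕ} (c : Fin (N + 1) → MvPolynomial (Fin m) ℂ) :
    hfc c (0 : Fin (N + 1) → ℂ) = 0 := by
  simp [hfc]

lemma hfc_sum_right {m N : ℕ} {ι : Type*} (c : Fin (N + 1) → MvPolynomial (Fin m) ℂ)
    (s : Finset ι) (x : ι → ℂ) (u : ι → Fin (N + 1) → ℂ) :
    hfc c (∑ i ∈ s, x i • u i) = ∑ i ∈ s, C (conj (x i)) * hfc c (u i) := by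
  classical
  induction s using Finset.induction_on with
  | empty => simp [hfc_zero_right]
  | insert i s hi ih => rw [Finset.sum_insert hi, Finset.sum_insert hi, hfc_add_right,
      hfc_smul_right, ih]

/-- The vectors `c` for which `hfc g c` is divisible by `p`. -/
noncomputable def Osub {m N : ℕ} (g : Fin (N + 1) → MvPolynomial (Fin m) ℂ)
    (p : MvPolynomial (Fin m) ℂ) : Submodule ℂ (Fin (N + 1) → ℂ) where
  carrier := {c | p ∣ hfc g c}
  zero_mem' := by
    show p ∣ hfc g 0
    rw [hfc_zero_right]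
    exact dvd_zero _
  add_mem' := by
    intro a b ha hb
    show p ∣ hfc g (a + b)
    rw [hfc_add_right]
    exact dvd_add ha hb
  smul_mem' := by
    intro x a ha
    show p ∣ hfc g (x • a)
    rw [hfc_smul_right]
    exact Dvd.dvd.mul_left ha _

lemma mem_Osub {m N : ℕ} (g : Fin (N + 1) → MvPolynomial (Fin m) ℂ)
    (p : MvPolynomial (Fin m) ℂ) (c : Fin (N + 1) → ℂ) : c ∈ Osub g p ↔ p ∣ hfc g c := Iff.rfl

/-! ### Orthogonal bases -/

lemma ip_pos {m : ℕ} {u : Fin m → ℂ} (hu : u ≠ 0) : ∑ i, u i * conj (u i) ≠ 0 := by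
  have h1 : ∑ i, u i * conj (u i) = ((∑ i, ‖u i‖ ^ 2 : ℝ) : ℂ) := by
    push_cast
    exact Finset.sum_congr rfl fun i _ => Complex.mul_conj' _
  rw [h1]
  obtain ⟨i, hi⟩ := Function.ne_iff.1 hu
  have h2 : 0 < ∑ i, ‖u i‖ ^ 2 := by
    apply Finset.sum_pos' (fun i _ => by positivity)
    exact ⟨i, Finset.mem_univ _, by
      have : 0 < ‖u i‖ := norm_pos_iff.2 hi
      positivity⟩
  exact_mod_cast h2.ne'

lemma ip_sum_left {m : ℕ} {ι : Type*} (s : Finset ι) (t : ι → ℂ) (e : ι → Fin m → ℂ)
    (u : Fin m → ℂ) : ∑ p, (∑ i ∈ s, t i * e i p) * conj (u p) =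
      ∑ i ∈ s, t i * ∑ p, e i p * conj (u p) := by
  simp only [Finset.sum_mul, Finset.mul_sum]
  rw [Finset.sum_comm]
  exact Finset.sum_congr rfl fun i _ => Finset.sum_congr rfl fun p _ => by ring

lemma ip_single {m : ℕ} {e : Fin m → Fin m → ℂ}
    (horth : ∀ i j, i ≠ j → ∑ l, e i l * conj (e j l) = 0) (a i : Fin m) (hi : i ≠ a)
    (t : Fin m → ℂ) : ∑ p, (∑ j ∈ univ.erase a, t j * e j p) * conj (e i p) =
      t i * ∑ p, e i p * conj (e i p) := by
  classical
  rw [ip_sum_left, Finset.sum_eq_single i]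
  · intro j _ hj
    rw [horth j i hj, mul_zero]
  · intro h
    exact absurd (Finset.mem_erase.2 ⟨hi, Finset.mem_univ _⟩) h

lemma ip_self_zero {m : ℕ} {e : Fin m → Fin m → ℂ}
    (horth : ∀ i j, i ≠ j → ∑ l, e i l * conj (e j l) = 0) (a : Fin m)
    (t : Fin m → ℂ) : ∑ p, (∑ j ∈ univ.erase a, t j * e j p) * conj (e a p) = 0 := by
  classical
  rw [ip_sum_left]
  refine Finset.sum_eq_zero fun j hj => ?_
  rw [horth j a (Finset.ne_of_mem_erase hj), mul_zero]

/-- Every vector orthogonal to `e a` is a combination of the others. -/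
lemma exists_coords {m : ℕ} {e : Fin m → Fin m → ℂ}
    (horth : ∀ i j, i ≠ j → ∑ l, e i l * conj (e j l) = 0) (hne : ∀ i, e i ≠ 0) (a : Fin m)
    (w : Fin m → ℂ) (hw : ∑ p, w p * conj (e a p) = 0) :
    ∃ t : Fin m → ℂ, ∀ p, w p = ∑ j ∈ univ.erase a, t j * e j p := by
  classical
  have hli : LinearIndependent ℂ e := by
    rw [Fintype.linearIndependent_iff]
    intro c hc i
    have h1 : ∑ p, (∑ j, c j * e j p) * conj (e i p) = 0 := by
      have h2 : ∀ p, ∑ j, c j * e j p = 0 := by
        intro p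
        have := congrFun hc p
        simpa using this
      simp [h2]
    rw [ip_sum_left, Finset.sum_eq_single i (fun j _ hj => by rw [horth j i hj, mul_zero])
      (fun h => absurd (Finset.mem_univ _) h)] at h1
    exact (mul_eq_zero.1 h1).resolve_right (ip_pos (hne i))
  haveI : Nonempty (Fin m) := ⟨a⟩
  have hspan : Submodule.span ℂ (Set.range e) = ⊤ :=
    hli.span_eq_top_of_card_eq_finrank (by simp)
  have hwm : w ∈ Submodule.span ℂ (Set.range e) := by rw [hspan]; trivial
  obtain ⟨t, ht⟩ := (Submodule.mem_span_range_iff_exists_fun ℂ).1 hwm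
  have ht' : ∀ p, w p = ∑ j, t j * e j p := by
    intro p
    rw [← ht]
    simp
  have hta : t a = 0 := by
    have h1 : ∑ p, (∑ j, t j * e j p) * conj (e a p) = 0 := by
      rw [← hw]
      exact Finset.sum_congr rfl fun p _ => by rw [ht' p]
    rw [ip_sum_left, Finset.sum_eq_single a (fun j _ hj => by rw [horth j a hj, mul_zero])
      (fun h => absurd (Finset.mem_univ _) h)] at h1
    exact (mul_eq_zero.1 h1).resolve_right (ip_pos (hne a))
  refine ⟨t, fun p => ?_⟩
  rw [ht' p, ← Finset.add_sum_erase _ _ (Finset.mem_univ a), hta, zero_mul, zero_add]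

/-! ### Pairings -/

lemma pair_dvd2 (hW : J_W) {m N d j : ℕ}
    {f : Fin (N + 1) → MvPolynomial (Fin m ⊕ Unit) ℂ} (hf' : SMap m N d f)
    (β : Fin m → ℂ) (a : ℂ) {l : ℕ → MvPolynomial (Fin m ⊕ Fin m) ℂ}
    (hl : Win (gp f β (conj a)) d 1 l) (v : Fin m → ℂ) (u : Fin (N + 1) → ℂ) (hj : 1 ≤ j)
    (hu : xp β v ^ j ∣ hfc (gp f β (conj a)) u) :
    lf v ^ (j + 1) ∣ hfc (cf (gp f β (conj a)) β d l) u := by
  rw [← atx_hfc]
  apply hW m d j 1 β (fun i => conj (v i)) (hfc (gp f β (conj a)) _) l hj
    (totalDegree_hfc_le hf' β _ _) hu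
  exact win_hfc hl _

lemma ev_gp_eq (hAJO : G_AJO) {m N d : ℕ}
    {f : Fin (N + 1) → MvPolynomial (Fin m ⊕ Unit) ℂ} (hf' : SMap m N d f)
    (β : Fin m → ℂ) (a : ℂ) (hnull : Null β a) (w : Fin m → ℂ) :
    ev (gp f β (conj a)) (fun p => β p + w p) = ∑ j ∈ range (d + 1), AJ f β a w j := by
  obtain ⟨hO1, hO2, hO3, hO4, hO5⟩ := hAJO m N d f hf' β a hnull
  have h := hO5 w 1
  simp only [one_pow, one_smul, one_mul] at h
  rw [h]
  funext k
  show eval _ (gp f β (conj a) k) = _
  rw [eval_gp]
  congr 1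
  have h1 : ∑ i, conj (β i) * (β i + w i) = ∑ i, β i * conj (β i) + ∑ i, w i * conj (β i) := by
    rw [← Finset.sum_add_distrib]
    exact Finset.sum_congr rfl fun i _ => by ring
  rw [h1, ← hnull]
  ring

/-- The restriction of a polynomial to the hyperplane through `β` orthogonal to `e_a`, in the
coordinates `t_i`. -/
noncomputable def rs {m : ℕ} (β : Fin m → ℂ) (e : Fin m → Fin m → ℂ) (a : Fin m)
    (P : MvPolynomial (Fin m) ℂ) : MvPolynomial (Fin m) ℂ :=
  aeval (fun p => C (β p) + ∑ i ∈ univ.erase a, X i * C (e i p)) P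

lemma eval_rs {m : ℕ} (β : Fin m → ℂ) (e : Fin m → Fin m → ℂ) (a : Fin m)
    (P : MvPolynomial (Fin m) ℂ) (t : Fin m → ℂ) :
    eval t (rs β e a P) = eval (fun p => β p + ∑ i ∈ univ.erase a, t i * e i p) P := by
  unfold rs
  induction P using MvPolynomial.induction_on with
  | C c => simp
  | add p q hp hq => simp only [map_add, hp, hq]
  | mul_X p i hp =>
    simp only [map_mul, hp, aeval_X, eval_X, map_add, map_sum, eval_C]

/-- The families at one good direction: the extra vectors `Y`. -/
lemma extra (hHF2 : G_HF2) (hAJO : G_AJO) (hEI : H_EI) (hCNTR : H_CNTR) (hCNTW : Q_CNTW)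
    (hDER : Q_DER) (hEXP : Q_EXP) (hNUM : Q_NUM) {m N d K K' : ℕ} (hK' : 2 ≤ K')
    (hKK : K' ≤ K) (hm : 16 * K ^ 2 ≤ m)
    (hN : N < (m + (K + 1)).choose m)
    {f : Fin (N + 1) → MvPolynomial (Fin m ⊕ Unit) ℂ} (hf' : SMap m N d f)
    (β : Fin m → ℂ) (a0 : ℂ) (hnull : Null β a0) (hA0 : fv f β a0 ≠ 0) (e : Fin m → Fin m → ℂ)
    (horth : ∀ i j, i ≠ j → ∑ l, e i l * conj (e j l) = 0) (hne : ∀ i, e i ≠ 0) (a : Fin m)
    (B : Finset (Fin m)) (hBa : a ∉ B) (hB : B.card = (m - 1) / 2)
    (hgood : GoodX f d K' β a0 (e a))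
    (hkill : ∀ c, xp β (e a) ^ (K' + 1) ∣ hfc (gp f β (conj a0)) c →
      hfc (gp f β (conj a0)) c = 0)
    (hwinK : ∀ κ : ℕ → ℂ, (∀ l < K', ∑ j ∈ range (d + 1), κ (j + l) • AJ f β a0 (e a) j = 0) →
      ∀ j < d + K', κ j = 0) :
    ∃ (k n : ℕ) (S : Fin n → Finset (Fin m)) (l : Fin n → ℕ → MvPolynomial (Fin m ⊕ Fin m) ℂ),
      2 ≤ k ∧ (∀ r, S r ⊆ B ∧ (S r).card = k) ∧
      (∀ r, Win (gp f β (conj a0)) d 1 (l r)) ∧
      (∀ r y, xp β y ^ k ∣ hfc (gp f β (conj a0)) (ev (cf (gp f β (conj a0)) β d (l r)) y)) ∧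
      d + 1 ≤ Module.finrank ℂ
        (Submodule.span ℂ (Set.range fun j : Fin (d + 1) => AJ f β a0 (e a) j)) + n ∧
      ∀ lam : Fin n → ℂ, (∑ r, lam r • dv e a (S r) (cf (gp f β (conj a0)) β d (l r))) ∈
        Submodule.span ℂ (Set.range fun j : Fin (d + 1) => AJ f β a0 (e a) j) → lam = 0 := by
  classical
  obtain ⟨hO1, hO2, hO3, hO4, hO5⟩ := hAJO m N d f hf' β a0 hnull
  have hK2 : 4 ≤ K ^ 2 := by nlinarith
  have hm2 : 2 ≤ m := by omega
  set g := gp f β (conj a0) with hg
  -- the linear algebra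
  obtain ⟨k, G, κ, hk2, hkK, hκ0, hκk, hκs, hdim, hGU⟩ :=
    hCNTW d (N + 1) K' (fun j => AJ f β a0 (e a) j) (fun k => Osub g (xp β (e a) ^ k)) hK'
      (by show AJ f β a0 (e a) 0 ≠ 0; rw [hO3]; exact hA0)
      (by
        intro i j hij c hc
        exact dvd_trans (pow_dvd_pow _ hij) hc)
      (by
        intro k
        show xp β (e a) ^ k ∣ hfc g (AJ f β a0 (e a) 0)
        rw [hO3, hg, hfc_A0 hf' β a0]
        exact dvd_zero _)
      (by
        intro c hc hcU
        have h0 := hkill c hc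
        have hcc : hf c c = 0 := by
          have h1 : ∀ w : Fin m → ℂ, hf (∑ j ∈ range (d + 1), AJ f β a0 w j) c = 0 := by
            intro w
            rw [← ev_gp_eq hAJO hf' β a0 hnull w, ← eval_hfc, ← hg, h0, map_zero]
          -- coefficients along `e a`
          have h2 : ∀ j ≤ d, hf (AJ f β a0 (e a) j) c = 0 := by
            apply coeffs_zero (fun j => hf (AJ f β a0 (e a) j) c)
            intro t
            have h3 := eval_hfc g c (fun p => β p + t * e a p)
            rw [h0, map_zero] at h3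
            have h4 : ev g (fun p => β p + t * e a p) =
                ∑ j ∈ range (d + 1), t ^ j • AJ f β a0 (e a) j := by
              rw [hO5]
              funext k
              show eval _ (gp f β (conj a0) k) = _
              rw [eval_gp]
              congr 1
              have h5 : ∑ i, conj (β i) * (β i + t * e a i) =
                  ∑ i, β i * conj (β i) + t * ∑ i, e a i * conj (β i) := by
                rw [Finset.mul_sum, ← Finset.sum_add_distrib]
                exact Finset.sum_congr rfl fun i _ => by ring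
              rw [h5, ← hnull]
              ring
            rw [h4, hf_sum_left] at h3
            simpa only [hf_smul_left] using h3.symm
          refine hf_span (S := Set.range fun j : Fin (d + 1) => AJ f β a0 (e a) j) (T := {c})
            ?_ c hcU c (Submodule.subset_span rfl)
          rintro x ⟨j, rfl⟩ y hy
          rw [Set.mem_singleton_iff] at hy
          rw [hy]
          exact h2 j (by omega)
        have hc0 : hf c (fv f β a0) = 0 := by
          refine hf_span (S := Set.range fun j : Fin (d + 1) => AJ f β a0 (e a) j)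
            (T := {fv f β a0}) ?_ c hcU _ (Submodule.subset_span rfl)
          rintro x ⟨j, rfl⟩ y hy
          rw [Set.mem_singleton_iff] at hy
          rw [hy]
          exact hO2 _ _
        obtain ⟨x, hx⟩ := hHF2 N (fv f β a0) c hA0 (hf'.orth β a0 β a0 hnull) hcc hc0
        exact ⟨x, by show c = x • AJ f β a0 (e a) 0; rw [hO3]; exact hx⟩)
      (by
        intro q _ κ hκ
        exact hEI m N d f hf' β a0 hnull (e a) q κ hκ)
      hwinK
  -- the families
  have hext := fun s => hgood.ext k hk2 hkK (κ s) (hκ0 s) (hκk s)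
  choose l hlW hlk hlv using hext
  have hcv : ∀ s, ev (cf g β d (l s)) (e a) =
      ∑ j ∈ range d, κ s j • AJ f β a0 (e a) (j + 1) := by
    intro s
    rw [hg, ev_cf f β a0 hnull]
    refine Finset.sum_congr rfl fun i hi => ?_
    rw [hlv s i (by have := Finset.mem_range.1 hi; omega)]
  choose G' hG' using fun s => hlk s (e a)
  -- independence of the restrictions
  have hP : LinearIndependent ℂ fun s => rs β e a (G' s) := by
    rw [Fintype.linearIndependent_iff]
    intro μ hμ
    have h1 : xp β (e a) ∣ ∑ s, C (μ s) * G' s := by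
      obtain ⟨i, hi⟩ := Function.ne_iff.1 (hne a)
      apply Pool.Agent.Helper81.DC.dvd_of_vanish β (e a) i hi
      intro η hη
      obtain ⟨t, ht⟩ := exists_coords horth hne a (fun p => η p - β p) hη
      have h2 := congrArg (eval t) hμ
      simp only [map_sum, smul_eval, eval_rs, map_zero] at h2
      have h3 : (fun p => β p + ∑ i ∈ univ.erase a, t i * e i p) = η := by
        funext p
        rw [← ht p]
        ring
      rw [h3] at h2
      simpa only [map_sum, map_mul, eval_C] using h2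
    have h4 : (fun s => conj (μ s)) = 0 := by
      apply hκs
      show xp β (e a) ^ (k + 1) ∣ hfc g _
      rw [hfc_sum_right]
      have h5 : ∑ s, C (conj (conj (μ s))) * hfc g (∑ j ∈ range d, κ s j •
          AJ f β a0 (e a) (j + 1)) = xp β (e a) ^ k * ∑ s, C (μ s) * G' s := by
        rw [Finset.mul_sum]
        refine Finset.sum_congr rfl fun s _ => ?_
        rw [← hcv s, hG' s, Complex.conj_conj]
        ring
      rw [h5, pow_succ]
      exact mul_dvd_mul_left _ h1
    intro s
    have := congrFun h4 s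
    simpa using this
  -- expansion
  have hGN : G * m < (m + (K + 1)).choose m := by
    have h1 := hCNTR m N d f hf' β a0 hnull hA0 (e a)
    have h2 : m * G ≤ m * (Module.finrank ℂ (Submodule.span ℂ
        (Set.range fun j : Fin (d + 1) => AJ f β a0 (e a) j)) - 1) :=
      Nat.mul_le_mul_left m (by omega)
    rw [mul_comm]
    omega
  have hnum := hNUM K m G k (by omega) hm hGN hk2 (by omega)
  rw [← hB] at hnum
  obtain ⟨J, hJB, hJli⟩ := hEXP m k K G ((K - 1) * (k - 1)) B (fun s => rs β e a (G' s)) hP hnum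
  refine ⟨k, (K - 1) * (k - 1) * G, fun r => (J r).1, fun r => l (J r).2, hk2, ?_, ?_, ?_, ?_, ?_⟩
  · intro r
    exact Finset.mem_powersetCard.1 (hJB r)
  · intro r
    exact hlW _
  · intro r y
    exact hlk _ y
  · refine hdim.trans ?_
    have : (K' - 1) * (k - 1) * G ≤ (K - 1) * (k - 1) * G :=
      Nat.mul_le_mul_right _ (Nat.mul_le_mul_right _ (by omega))
    omega
  · intro lam hlam
    rw [Fintype.linearIndependent_iff] at hJli
    have hzero : ∑ r, (conj (lam r) * (k.factorial : ℂ) *
        ∏ i ∈ (J r).1, ∑ p, e i p * conj (e i p)) •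
        ((∏ i ∈ (J r).1, X i) * rs β e a (G' (J r).2)) = 0 := by
      apply MvPolynomial.funext
      intro t
      rw [map_zero, map_sum]
      set w : Fin m → ℂ := fun p => ∑ i ∈ univ.erase a, t i * e i p with hw
      have hw0 : ∑ p, w p * conj (e a p) = 0 := ip_self_zero horth a t
      have h1 : hf (ev g fun p => β p + w p)
          (∑ r, lam r • dv e a (J r).1 (cf g β d (l (J r).2))) = 0 := by
        rw [hg, ev_gp_eq hAJO hf' β a0 hnull w]
        refine hf_span (S := {∑ j ∈ range (d + 1), AJ f β a0 w j})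
          (T := Set.range fun j : Fin (d + 1) => AJ f β a0 (e a) j) ?_ _
          (Submodule.subset_span rfl) _ hlam
        rintro x hx y ⟨j, rfl⟩
        rw [Set.mem_singleton_iff] at hx
        rw [hx]
        have h2 : ∑ j ∈ range (d + 1), AJ f β a0 w j =
            ∑ j ∈ range (d + 1), (1 : ℂ) • AJ f β a0 w j := by simp
        rw [h2, hf_sum_left]
        refine Finset.sum_eq_zero fun i _ => ?_
        rw [hf_smul_left, hO1 w (e a) hw0, mul_zero]
      rw [hf_sum_right] at h1
      rw [← h1]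
      refine Finset.sum_congr rfl fun r _ => ?_
      have hJr := Finset.mem_powersetCard.1 (hJB r)
      rw [hf_smul_right, hDER m N k β g (cf g β d (l (J r).2)) hm2 (hlk _) e a (J r).1 (hne a)
        hJr.2 (G' (J r).2) (hG' _) w hw0]
      rw [smul_eval, map_mul, map_prod, eval_rs]
      have h3 : ∏ i ∈ (J r).1, ∑ p, w p * conj (e i p) =
          (∏ i ∈ (J r).1, t i) * ∏ i ∈ (J r).1, ∑ p, e i p * conj (e i p) := by
        rw [← Finset.prod_mul_distrib]
        refine Finset.prod_congr rfl fun i hi => ?_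
        apply ip_single horth a i
        rintro rfl
        exact hBa (hJr.1 hi)
      rw [h3]
      simp only [eval_X]
      ring
    funext r
    have h4 := hJli _ hzero r
    have h5 : (k.factorial : ℂ) ≠ 0 := by exact_mod_cast k.factorial_ne_zero
    have h6 : ∏ i ∈ (J r).1, ∑ p, e i p * conj (e i p) ≠ 0 :=
      Finset.prod_ne_zero_iff.2 fun i _ => ip_pos (hne i)
    rw [mul_eq_zero, mul_eq_zero] at h4
    rcases h4 with (h4 | h4) | h4
    · simpa using h4
    · exact absurd h4 h5
    · exact absurd h4 h6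

/-- **Theorem K** in Siegel form. -/
theorem siegel_K (hHF2 : G_HF2) (hAJO : G_AJO) (hEI : H_EI) (hSQ : H_SQ) (hDQ : H_DQ)
    (hTX : H_TX) (hGOODW : H_GOODW) (hCNTR : H_CNTR) (hPDEC : H_PDEC) (hJ1 : H_J1)
    (hW : J_W) (hCNTZ : J_CNTZ) (hGOODX : Q_GOODX) (hCNTW : Q_CNTW) (hDER : Q_DER)
    (hCROSS : Q_CROSS) (hEXP : Q_EXP) (hARC : Q_ARC) (hNUM : Q_NUM) {K m N d : ℕ}
    (f : Fin (N + 1) → MvPolynomial (Fin m ⊕ Unit) ℂ) (hf' : SMap m N d f) (hK : 2 ≤ K)
    (hm : 16 * K ^ 2 ≤ m) (hd : 1 ≤ d) (hN : N < (m + (K + 1)).choose m) : m * d + 1 ≤ N := by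
  classical
  have hK2 : 4 ≤ K ^ 2 := by nlinarith
  have hm2 : 2 ≤ m := by omega
  obtain ⟨P, hP0, hPd, hP⟩ := hPDEC m N d (K + 1) f hf' hN
  have hi : 2 ≤ P.totalDegree := by
    by_contra hlt
    exact hP0 (hJ1 m N d f hf' (by omega) hd P (by omega) hP)
  have hmd : 4 ≤ m * d := le_trans (by omega) (Nat.le_mul_of_pos_right m hd)
  rcases Nat.lt_or_ge P.totalDegree 3 with hlt | hge
  · have h := core hHF2 hAJO hEI hSQ hDQ hTX hGOODW hCNTR f hf' (by omega) P hP0 hP hi
    have h2 : P.totalDegree - 1 = 1 := by omega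
    rw [h2, one_mul] at h
    omega
  obtain ⟨K', hK'⟩ : ∃ K', P.totalDegree = K' + 1 := ⟨P.totalDegree - 1, by omega⟩
  set S := homogeneousComponent (K' + 1) P with hS
  have hS0 : S ≠ 0 := by
    intro h0
    obtain ⟨α, hα, hα2⟩ : ∃ α ∈ P.support, (α.sum fun _ e => e) = K' + 1 := by
      have hne : P.support.Nonempty := by
        rwa [Finset.nonempty_iff_ne_empty, Ne, MvPolynomial.support_eq_empty]
      obtain ⟨α, hα, h⟩ := Finset.exists_mem_eq_sup P.support hne (fun s => s.sum fun _ e => e)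
      exact ⟨α, hα, by rw [← hK']; exact h.symm⟩
    have h1 := congrArg (coeff α) h0
    rw [hS, coeff_homogeneousComponent, if_pos (by rw [← hα2]; rfl), coeff_zero] at h1
    exact (MvPolynomial.mem_support_iff.1 hα) h1
  obtain ⟨c0, w0, hcw⟩ := exists_ev2_ne S hS0
  set W : MvPolynomial (V3 m ⊕ Fin m) ℂ :=
    eval₂ (aeval (fun s => X (Sum.inl s)) : MvPolynomial (V3 m) ℂ →ₐ[ℂ] _).toRingHom
      (fun j => X (Sum.inr j)) S with hWdef
  have hWev : ∀ (c : V3 m → ℂ) (r : Fin m → ℂ),
      eval (Sum.elim c r) W = eval c (ev2 r S) := by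
    intro c r
    rw [hWdef, eval_eval2]
    simp
  have hW0 : W ≠ 0 := by
    intro h0
    apply hcw
    have := hWev c0 w0
    rw [h0, map_zero] at this
    exact this.symm
  obtain ⟨β, a0, hnull, hA0, e, horth, hne, he⟩ := hGOODX m N d K' f hf' hm2 W hW0
  obtain ⟨hO1, hO2, hO3, hO4, hO5⟩ := hAJO m N d f hf' β a0 hnull
  have hkill : ∀ a, ∀ c, xp β (e a) ^ (K' + 1) ∣ hfc (gp f β (conj a0)) c →
      hfc (gp f β (conj a0)) c = 0 := by
    intro a c hc
    have hWne := (he a).2
    rw [hWev] at hWne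
    apply hTX m (K' + 1) β (e a) (MvPolynomial.map (spec β (conj a0)).toRingHom P) _ _
      (pde_hq f P hP β (conj a0) c) hc
    · rw [map_hom, ← hS]
      unfold spec
      rw [eval_ev2_map]
      have hpt : (fun s => eval β ((Sum.elim (fun i => X i)
          (Sum.elim (fun i => C (conj (β i))) fun _ => C (conj a0)) :
          V3 m → MvPolynomial (Fin m) ℂ) s)) = pt β (fun i => conj (β i)) (conj a0) := by
        funext s
        rcases s with s | s | s <;> simp [pt]
      rw [hpt]
      exact hWne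
    · rw [← hK']
      exact totalDegree_map_le' _ _
  have hwinK : ∀ a, ∀ κ : ℕ → ℂ,
      (∀ l < K', ∑ j ∈ range (d + 1), κ (j + l) • AJ f β a0 (e a) j = 0) →
      ∀ j < d + K', κ j = 0 := fun a =>
    windows hHF2 hAJO hEI hSQ f hf' β a0 hnull hA0 (e a) (he a).1.nz (he a).1.top K' (by omega)
      (hkill a)
  obtain ⟨B, hBc, hBa, hBB⟩ := hARC m ((m - 1) / 2) (by omega)
  have hfam := fun a => extra hHF2 hAJO hEI hCNTR hCNTW hDER hEXP hNUM (K := K) (K' := K')
    (by omega) (by omega) hm hN hf' β a0 hnull hA0 e horth hne a (B a) (hBa a) (hBc a) (he a).1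
    (hkill a) (hwinK a)
  choose k n S l hk2 hSB hlW hlk hdim hind using hfam
  set g := gp f β (conj a0) with hg
  set Y : ∀ a, Fin (n a) → Fin (N + 1) → ℂ := fun a r =>
    dv e a (S a r) (cf g β d (l a r)) with hY
  set U : Fin m → Submodule ℂ (Fin (N + 1) → ℂ) := fun a =>
    Submodule.span ℂ (Set.range fun j : Fin (d + 1) => AJ f β a0 (e a) j) with hU
  have haS : ∀ a r, a ∉ S a r := fun a r h => hBa a ((hSB a r).1 h)
  -- the pairing formula
  have hder : ∀ a r (w : Fin m → ℂ), ∑ p, w p * conj (e a p) = 0 →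
      (∃ i ∈ S a r, ∑ p, w p * conj (e i p) = 0) →
      hf (ev g fun p => β p + w p) (Y a r) = 0 := by
    intro a r w hw ⟨i, hi, hwi⟩
    obtain ⟨G', hG'⟩ := hlk a r (e a)
    rw [hY]
    show hf (ev g fun p => β p + w p) (dv e a (S a r) (cf g β d (l a r))) = 0
    rw [hDER m N (k a) β g (cf g β d (l a r)) hm2 (hlk a r) e a (S a r) (hne a) (hSB a r).2 G' hG'
      w hw, Finset.prod_eq_zero hi hwi, mul_zero, zero_mul]
  have hAY2 : ∀ a b r, a ≠ b → ∀ j ≤ d, hf (AJ f β a0 (e b) j) (Y a r) = 0 := by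
    intro a b r hab
    apply coeffs_zero (fun j => hf (AJ f β a0 (e b) j) (Y a r))
    intro t
    have h4 : ev g (fun p => β p + t * e b p) =
        ∑ j ∈ range (d + 1), t ^ j • AJ f β a0 (e b) j := by
      rw [hO5]
      funext k
      show eval _ (gp f β (conj a0) k) = _
      rw [eval_gp]
      congr 1
      have h5 : ∑ i, conj (β i) * (β i + t * e b i) =
          ∑ i, β i * conj (β i) + t * ∑ i, e b i * conj (β i) := by
        rw [Finset.mul_sum, ← Finset.sum_add_distrib]
        exact Finset.sum_congr rfl fun i _ => by ring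
      rw [h5, ← hnull]
      ring
    have hsm : ∀ u : Fin m → ℂ, ∑ p, e b p * conj (u p) = 0 →
        ∑ p, t * e b p * conj (u p) = 0 := by
      intro u hu
      have : ∑ p, t * e b p * conj (u p) = t * ∑ p, e b p * conj (u p) := by
        rw [Finset.mul_sum]
        exact Finset.sum_congr rfl fun p _ => by ring
      rw [this, hu, mul_zero]
    have h6 := hder a r (fun p => t * e b p) (hsm (e a) (horth b a (Ne.symm hab))) (by
      obtain ⟨i, hi, hib⟩ : ∃ i ∈ S a r, i ≠ b := by
        have h7 : 1 < (S a r).card := by rw [(hSB a r).2]; exact hk2 a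
        exact Finset.exists_mem_ne h7 b
      exact ⟨i, hi, hsm (e i) (horth b i (Ne.symm hib))⟩)
    rw [h4, hf_sum_left] at h6
    simpa only [hf_smul_left] using h6
  have hA0Y : ∀ a r, hf (fv f β a0) (Y a r) = 0 := by
    intro a r
    obtain ⟨i, hi⟩ : (S a r).Nonempty := by
      rw [← Finset.card_pos, (hSB a r).2]
      have := hk2 a
      omega
    have h6 := hder a r 0 (by simp) ⟨i, hi, by simp⟩
    have h7 : ev g (fun p => β p + (0 : Fin m → ℂ) p) = fv f β a0 := by
      rw [hg, ev_gp_eq hAJO hf' β a0 hnull 0, Finset.sum_range_succ']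
      have h8 : ∀ j, AJ f β a0 0 (j + 1) = 0 := by
        intro j
        by_cases hj : d < j + 1
        · exact hO4 0 (j + 1) hj
        · have h9 : ∀ t : ℂ, ∀ r : Fin (N + 1), ∑ j ∈ range (d + 1), t ^ j *
              ((if j = 0 then 0 else AJ f β a0 0 j r)) = 0 := by
            intro t r
            have h10 := congrFun (hO5 0 t) r
            have h11 := congrFun (hO5 0 0) r
            simp only [Finset.sum_apply, Pi.smul_apply, smul_eq_mul, Pi.zero_apply, mul_zero,
              zero_mul, Finset.sum_const_zero, add_zero] at h10 h11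
            rw [Finset.sum_range_succ'] at h10 h11 ⊢
            simp only [pow_zero, one_mul, if_true, add_zero, Nat.add_eq_zero_iff, one_ne_zero,
              and_false, if_false, mul_zero, ne_eq, not_false_eq_true, zero_pow, zero_mul,
              Finset.sum_const_zero, zero_add] at h10 h11 ⊢
            rw [h11] at h10
            simpa using h10
          funext r
          have h12 := coeffs_zero (fun j => if j = 0 then 0 else AJ f β a0 0 j r)
            (fun t => h9 t r) (j + 1) (by omega)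
          simpa using h12
      rw [Finset.sum_eq_zero (fun j _ => h8 j), zero_add, hO3]
    rwa [h7] at h6
  have hYY : ∀ a b r s, a ≠ b → k a ≤ k b → hf (Y a r) (Y b s) = 0 := by
    intro a b r s hab hkab
    apply hCROSS m N (k b + 1) (cf g β d (l a r)) (cf g β d (l b s)) hm2 _ e horth a b (S a r)
      (S b s) hab (haS a r) (haS b s)
    · have h1 : (insert a (S a r)).card = k a + 1 := by
        rw [Finset.card_insert_of_notMem (haS a r), (hSB a r).2]
      have h2 : (insert b (S b s)).card = k b + 1 := by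
        rw [Finset.card_insert_of_notMem (haS b s), (hSB b s).2]
      rcases Nat.lt_or_ge (k a) (k b) with h3 | h3
      · have := Finset.card_le_card (Finset.inter_subset_left (s₁ := insert a (S a r))
          (s₂ := insert b (S b s)))
        omega
      · by_contra h4
        have h5 : insert a (S a r) ∩ insert b (S b s) = insert a (S a r) :=
          Finset.eq_of_subset_of_card_le Finset.inter_subset_left (by omega)
        have h6 : insert a (S a r) ∩ insert b (S b s) = insert b (S b s) :=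
          Finset.eq_of_subset_of_card_le Finset.inter_subset_right (by omega)
        have h7 : insert a (S a r) = insert b (S b s) := by rw [← h5, h6]
        have h8 : a ∈ insert b (S b s) := by rw [← h7]; exact Finset.mem_insert_self _ _
        have h9 : b ∈ insert a (S a r) := by rw [h7]; exact Finset.mem_insert_self _ _
        have h10 : a ∈ B b := (hSB b s).1 ((Finset.mem_insert.1 h8).resolve_left hab)
        have h11 : b ∈ B a := (hSB a r).1 ((Finset.mem_insert.1 h9).resolve_left (Ne.symm hab))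
        exact hBB a b hab h11 h10
    · intro v
      exact pair_dvd2 hW hf' β a0 (hlW a r) v _ (by have := hk2 b; omega) (hlk b s v)
  have hYY' : ∀ a b r s, a ≠ b → hf (Y a r) (Y b s) = 0 := by
    intro a b r s hab
    rcases Nat.le_total (k a) (k b) with h | h
    · exact hYY a b r s hab h
    · rw [hf_zero_iff]
      exact hYY b a s r (Ne.symm hab) h
  apply hCNTZ m N d (fv f β a0) (fun a => U a ⊔ Submodule.span ℂ (Set.range (Y a))) (by omega) hA0
  · intro a
    apply Submodule.mem_sup_left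
    apply Submodule.subset_span
    exact ⟨0, by show AJ f β a0 (e a) 0 = _; rw [hO3]⟩
  · intro a x hx
    simp only [hU] at hx
    rw [← Submodule.span_union] at hx
    refine hf_span (T := {fv f β a0}) ?_ x hx _ (Submodule.subset_span rfl)
    rintro x hx y hy
    rw [Set.mem_singleton_iff] at hy
    rw [hy]
    rcases hx with ⟨j, rfl⟩ | ⟨s, rfl⟩
    · exact hO2 _ _
    · rw [hf_zero_iff]
      exact hA0Y a s
  · intro a b hab x hx y hy
    simp only [hU] at hx hy
    rw [← Submodule.span_union] at hx hy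
    refine hf_span ?_ x hx y hy
    rintro x hx y hy
    rcases hx with ⟨j, rfl⟩ | ⟨s, rfl⟩ <;> rcases hy with ⟨j', rfl⟩ | ⟨t, rfl⟩
    · exact hO1 _ _ (horth _ _ hab) _ _
    · exact hAY2 b a t (Ne.symm hab) j (by omega)
    · rw [hf_zero_iff]
      exact hAY2 a b s hab j' (by omega)
    · exact hYY' a b s t hab
  · intro a
    have h5 := finrank_sup_ge (U a) (Y a) (hind a)
    have h6 := hdim a
    exact le_trans h6 h5

end Pool.Agent.Helper66.DC
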