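import Mathlib
import Pool.Agent.Helper69.DC.Final2
import Pool.Agent.Helper66.DC.Asm6
import Pool.Agent.Helper86.DC.RK
import Pool.Agent.Helper91.DC.W
import Pool.Agent.Helper35.DC.CNTZ
import Pool.Agent.Helper35.DC.GS
import Pool.Agent.Helper53.DC.RK2
import Pool.Agent.Helper88.DC.EXT
import Pool.Agent.Helper64.DC.GOODX
import Pool.Agent.Helper54.DC.CNTW
import Pool.Agent.Helper19.DC.DER
import Pool.Agent.Helper30.DC.CROSS
import Pool.Agent.Helper33.DC.EXP
import Pool.Agent.Helper56.DC.ARC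
import Pool.Agent.Helper26.DC.NUM

/-!
Unconditional form of the fourth stage: the sharp bound `(n-1) d + 1 ≤ N` for `n > 16 K²`,
`N < C(n+K, K+1)`.
-/

namespace Pool.Agent.Helper66.DC

open MvPolynomial Finset ComplexConjugate Pool.Agent.Helper69.DC

theorem j_rk : J_RK := Pool.Agent.Helper86.DC.h_rk
theorem j_w : J_W := Pool.Agent.Helper91.DC.h_w
theorem j_gs : J_GS := Pool.Agent.Helper35.DC.h_gs
theorem j_cntz : J_CNTZ := Pool.Agent.Helper35.DC.h_cntz
theorem q_rk2 : Q_RK2 := Pool.Agent.Helper53.DC.h_rk2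
theorem q_ext : Q_EXT := Pool.Agent.Helper88.DC.h_ext j_rk q_rk2
theorem q_goodx : Q_GOODX := Pool.Agent.Helper64.DC.h_goodx q_ext
theorem q_cntw : Q_CNTW := Pool.Agent.Helper54.DC.h_cntw
theorem q_der : Q_DER := Pool.Agent.Helper19.DC.h_der j_gs
theorem q_cross : Q_CROSS := Pool.Agent.Helper30.DC.h_cross j_gs
theorem q_exp : Q_EXP := Pool.Agent.Helper33.DC.h_exp
theorem q_arc : Q_ARC := Pool.Agent.Helper56.DC.h_arc
theorem q_num : Q_NUM := Pool.Agent.Helper26.DC.h_num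

/-- **Theorem K**, in the Siegel model. -/
theorem siegelK {K m N d : ℕ} (f : Fin (N + 1) → MvPolynomial (Fin m ⊕ Unit) ℂ)
    (hf' : SMap m N d f) (hK : 2 ≤ K) (hm : 16 * K ^ 2 ≤ m) (hd : 1 ≤ d)
    (hN : N < (m + (K + 1)).choose m) : m * d + 1 ≤ N :=
  siegel_K k_hf2 k_ajo h_ei h_sq h_dq h_tx h_goodw h_cntr h_pdec h_j1 j_w j_cntz q_goodx q_cntw
    q_der q_cross q_exp q_arc q_num f hf' hK hm hd hN

end Pool.Agent.Helper66.DC
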