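import Pool.Agent.Helper66.DC.Goals3
import Pool.Agent.Helper64.DC.GOODX
import Pool.Agent.Helper88.DC.EXT
import Pool.Agent.Helper86.DC.RK

/-!
Packet DC3-GOODB (MP_628424_an): a null point with an orthogonal basis of good directions.
-/

namespace Pool.Agent.Helper66.DC

open MvPolynomial Finset ComplexConjugate Pool.Agent.Helper69.DC Pool.Agent.Helper8.DC
open Pool.Agent.Helper64.DC Pool.Agent.Helper88.DC

theorem gb_win_sum {R : Type*} [CommSemiring R] (d q s : ℕ) (hs : s < q) (G κ : ℕ → R) :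
    ∑ c : Fin (d + q), (if s ≤ (c : ℕ) ∧ (c : ℕ) ≤ d + s then G (c - s) else 0) * κ c =
      ∑ i ∈ range (d + 1), κ (i + s) * G i := by
  rw [Fin.sum_univ_eq_sum_range (fun c => (if s ≤ c ∧ c ≤ d + s then G (c - s) else 0) * κ c)
    (d + q)]
  symm
  refine Finset.sum_bij_ne_zero (fun i _ _ => i + s) ?_ ?_ ?_ ?_
  · intro i hi _
    have := mem_range.1 hi
    exact mem_range.2 (by omega)
  · intro i _ _ j _ _ hij
    exact Nat.add_right_cancel hij
  · intro c hc hne
    by_cases h : s ≤ c ∧ c ≤ d + s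
    · refine ⟨c - s, mem_range.2 (by omega), ?_, by omega⟩
      rw [if_pos h] at hne
      rw [Nat.sub_add_cancel h.1, mul_comm]
      exact hne
    · rw [if_neg h, zero_mul] at hne
      exact absurd rfl hne
  · intro i hi _
    have := mem_range.1 hi
    rw [if_pos (by omega), Nat.add_sub_cancel, mul_comm]

theorem gb_inj (m : ℕ) : Function.Injective
    (Sum.elim Sum.inl (fun i => Sum.inr (Sum.inl i)) :
      V3 m ⊕ Fin m → V3 m ⊕ (Fin m ⊕ Fin m)) := by
  intro x y hxy
  rcases x with x | x <;> rcases y with y | y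
  · have h1 : (Sum.inl x : V3 m ⊕ (Fin m ⊕ Fin m)) = Sum.inl y := hxy
    rw [Sum.inl.inj h1]
  · have h1 : (Sum.inl x : V3 m ⊕ (Fin m ⊕ Fin m)) = Sum.inr (Sum.inl y) := hxy
    exact absurd h1 (by simp)
  · have h1 : (Sum.inr (Sum.inl x) : V3 m ⊕ (Fin m ⊕ Fin m)) = Sum.inl y := hxy
    exact absurd h1 (by simp)
  · have h1 : (Sum.inr (Sum.inl x) : V3 m ⊕ (Fin m ⊕ Fin m)) = Sum.inr (Sum.inl y) := hxy
    rw [Sum.inl.inj (Sum.inr.inj h1)]

theorem h_goodb (h : J_RK) : J_GOODB := by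
  intro m N d q f hf hm W₁ W₂ hW₁ hW₂
  obtain ⟨D, hD, hD2⟩ := g_bez (Fin m ⊕ Unit) N f hf.cop
  obtain ⟨k, hk, hkd⟩ := exists_top hf
  have hH : homogeneousComponent d (f k) ≠ 0 := by
    rw [← hkd]
    exact hom_ne_zero hk
  obtain ⟨W, hW, hW2⟩ := h ((Fin m ⊕ Unit) ⊕ (Fin m ⊕ Unit)) (Fin q × Fin (N + 1)) (Fin (d + q))
    (fun r c => if (r.1 : ℕ) ≤ (c : ℕ) ∧ (c : ℕ) ≤ d + r.1 then gam (f r.2) (c - r.1) else 0)
  obtain ⟨G, hG⟩ : ∃ G : MvPolynomial ((Fin m ⊕ Unit) ⊕ (Fin m ⊕ Unit)) ℂ,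
      G = D * rename Sum.inr (homogeneousComponent d (f k)) * rename Sum.inl (f k) * W := ⟨_, rfl⟩
  have hG0 : G ≠ 0 := by
    rw [hG]
    exact mul_ne_zero (mul_ne_zero (mul_ne_zero hD (rename_ne Sum.inr_injective hH))
      (rename_ne Sum.inl_injective hk)) hW
  have hP : P1 G * rename (Sum.elim Sum.inl (fun i => Sum.inr (Sum.inr i)) :
      V3 m ⊕ Fin m → V3 m ⊕ (Fin m ⊕ Fin m)) W₂ *
      rename (Sum.elim Sum.inl (fun i => Sum.inr (Sum.inl i)) :
      V3 m ⊕ Fin m → V3 m ⊕ (Fin m ⊕ Fin m)) W₁ ≠ 0 :=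
    mul_ne_zero (mul_ne_zero (P1_ne hG0 hm) (rename_ne (gx_inj m) hW₂)) (rename_ne (gb_inj m) hW₁)
  have hex : ∃ (β : Fin m → ℂ) (b : ℂ) (v : Fin m → ℂ), b + conj b = ∑ i, β i * conj (β i) ∧
      eval (pp β (fun i => conj (β i)) b v fun i => conj (v i))
        (P1 G * rename (Sum.elim Sum.inl (fun i => Sum.inr (Sum.inr i)) :
          V3 m ⊕ Fin m → V3 m ⊕ (Fin m ⊕ Fin m)) W₂ *
        rename (Sum.elim Sum.inl (fun i => Sum.inr (Sum.inl i)) :
          V3 m ⊕ Fin m → V3 m ⊕ (Fin m ⊕ Fin m)) W₁) ≠ 0 := by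
    by_contra hcon
    push Not at hcon
    exact hP (Pool.Agent.Helper5.DC.g_ld m (Fin m) _ fun β b w hb => hcon β b w hb)
  obtain ⟨β, b, v, hb, hev⟩ := hex
  rw [map_mul, map_mul] at hev
  have e3 := right_ne_zero_of_mul hev
  have e1 := left_ne_zero_of_mul (left_ne_zero_of_mul hev)
  have e2 := right_ne_zero_of_mul (left_ne_zero_of_mul hev)
  have ha : ∑ i, β i * conj (β i) - b = conj b := by
    rw [← hb]
    ring
  rw [ev_P1, ha] at e1
  have hcomp : (pp β (fun i => conj (β i)) b v fun i => conj (v i)) ∘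
      (Sum.elim Sum.inl (fun i => Sum.inr (Sum.inr i)) :
        V3 m ⊕ Fin m → V3 m ⊕ (Fin m ⊕ Fin m)) =
      Sum.elim (pt β (fun i => conj (β i)) b) fun i => conj (v i) := by
    funext i
    rcases i with i | i
    · rfl
    · rfl
  have hcomp' : (pp β (fun i => conj (β i)) b v fun i => conj (v i)) ∘
      (Sum.elim Sum.inl (fun i => Sum.inr (Sum.inl i)) :
        V3 m ⊕ Fin m → V3 m ⊕ (Fin m ⊕ Fin m)) =
      Sum.elim (pt β (fun i => conj (β i)) b) v := by
    funext i
    rcases i with i | i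
    · rfl
    · rfl
  rw [eval_rename, hcomp] at e2
  rw [eval_rename, hcomp'] at e3
  have hnull : Null β (conj b) := by
    unfold Null
    rw [Complex.conj_conj, add_comm]
    exact hb
  -- the polynomials in the direction
  have hA : aeval (gxs β (conj b)) G ≠ 0 := by
    intro h0
    apply e1
    rw [← ev_gxs, h0, map_zero]
  have hB : Pool.Agent.Helper28.Ball.cj (aeval (gxw (pt β (fun i => conj (β i)) b)) W₂) ≠ 0 := by
    intro h0
    have h1 := Pool.Agent.Helper28.Ball.eval_cj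
      (aeval (gxw (pt β (fun i => conj (β i)) b)) W₂) v
    rw [h0, map_zero, ev_gxw] at h1
    apply e2
    have h2 := congrArg conj h1
    rw [map_zero, Complex.conj_conj] at h2
    exact h2.symm
  have hC : aeval (gxw (pt β (fun i => conj (β i)) b)) W₁ ≠ 0 := by
    intro h0
    apply e3
    rw [← ev_gxw, h0, map_zero]
  obtain ⟨e, he1, he2, he3⟩ := Pool.Agent.Helper91.DC.g_ob m
    (aeval (gxs β (conj b)) G *
      Pool.Agent.Helper28.Ball.cj (aeval (gxw (pt β (fun i => conj (β i)) b)) W₂) *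
      aeval (gxw (pt β (fun i => conj (β i)) b)) W₁)
    (mul_ne_zero (mul_ne_zero hA hB) hC)
  have hfk : eval (Sum.elim β fun _ => conj b) (f k) ≠ 0 := by
    rw [hG, map_mul, map_mul] at e1
    have h1 := right_ne_zero_of_mul (left_ne_zero_of_mul e1)
    rw [eval_rename, Sum.elim_comp_inl] at h1
    exact h1
  refine ⟨β, conj b, hnull, ?_, e, he1, he2, ?_⟩
  · intro h0
    exact hfk (congrFun h0 k)
  intro i
  have h3 := he3 i
  rw [map_mul, map_mul] at h3
  have h5 := right_ne_zero_of_mul h3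
  have h4 := left_ne_zero_of_mul (left_ne_zero_of_mul h3)
  have h6 := right_ne_zero_of_mul (left_ne_zero_of_mul h3)
  rw [ev_gxw] at h5
  rw [ev_gxs, hG, map_mul, map_mul, map_mul] at h4
  have hWi := right_ne_zero_of_mul h4
  have hDi := left_ne_zero_of_mul (left_ne_zero_of_mul (left_ne_zero_of_mul h4))
  have hHi := right_ne_zero_of_mul (left_ne_zero_of_mul (left_ne_zero_of_mul h4))
  rw [eval_rename, Sum.elim_comp_inr] at hHi
  refine ⟨⟨?_, ?_, ?_⟩, ?_, ?_⟩
  · intro t h0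
    obtain ⟨l, hl⟩ := hD2 _ _ hDi t
    apply hl
    have h7 := congrFun h0 l
    unfold fv at h7
    rw [Pi.zero_apply] at h7
    rw [← h7]
    congr 1
    congr 1
    funext j
    rcases j with j | j
    · rfl
    · rfl
  · intro h0
    apply hHi
    have h7 := congrFun h0 k
    unfold AJ la at h7
    rw [Pi.zero_apply] at h7
    rw [← coeff_lin (Sum.elim β fun _ => conj b)
      (Sum.elim (e i) fun _ => ∑ j, e i j * conj (β j)) (f k) d hkd.le, ← h7]
    congr 1
    congr 1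
    congr 1
    funext j
    rcases j with j | j
    · rfl
    · rfl
  · -- the extension
    intro κ hκ
    obtain ⟨x₀, hx₀⟩ : ∃ x : (Fin m ⊕ Unit) ⊕ (Fin m ⊕ Unit) → ℂ,
        x = Sum.elim (Sum.elim β fun _ => conj b)
          (Sum.elim (e i) fun _ => ∑ j, e i j * conj (β j)) := ⟨_, rfl⟩
    have hth : ∀ p : MvPolynomial ((Fin m ⊕ Unit) ⊕ (Fin m ⊕ Unit)) ℂ,
        eval (Sum.elim β (e i)) (theta β b p) = eval x₀ p := by
      intro p
      rw [hx₀, ← eval_phi, ← atx_theta β (conj b) hnull, eval_atx, Complex.conj_conj]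
    have hgam : ∀ r j, eval x₀ (gam (f r) j) = AJ f β (conj b) (e i) j r := by
      intro r j
      rw [← hth, theta_gam_gp, AJ_eq_gam f β (conj b) hnull, Complex.conj_conj]
    have hu : ∀ r : Fin q × Fin (N + 1), ∑ c : Fin (d + q),
        eval x₀ (if (r.1 : ℕ) ≤ (c : ℕ) ∧ (c : ℕ) ≤ d + r.1 then gam (f r.2) (c - r.1) else 0) *
          κ c = 0 := by
      rintro ⟨s, r⟩
      have h7 := congrFun (hκ s s.2) r
      rw [Finset.sum_apply, Pi.zero_apply] at h7
      have h8 := gb_win_sum d q s s.2 (fun j => AJ f β (conj b) (e i) j r) κ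
      rw [← h7]
      simp only [Pi.smul_apply, smul_eq_mul]
      rw [← h8]
      refine Finset.sum_congr rfl fun c _ => ?_
      congr 1
      split_ifs
      · exact hgam _ _
      · exact map_zero _
    obtain ⟨K, hK1, hK2⟩ := hW2 x₀ (by rw [hx₀]; exact hWi) (fun c => κ c) hu
    refine ⟨fun j => if hj : j < d + q then theta β b (K ⟨j, hj⟩) else 0, ?_, ?_⟩
    · intro s hs r
      have h7 := congrArg (theta β b) (hK1 (⟨s, hs⟩, r))
      rw [map_sum, map_zero] at h7
      rw [Complex.conj_conj]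
      have h8 := gb_win_sum d q s hs (fun j => gam (gp f β b r) j)
        (fun j => if hj : j < d + q then theta β b (K ⟨j, hj⟩) else 0)
      refine h8.symm.trans (Eq.trans ?_ h7)
      refine Finset.sum_congr rfl fun c _ => ?_
      rw [dif_pos c.2, map_mul]
      congr 1
      dsimp only
      split_ifs
      · rw [theta_gam_gp]
      · rw [map_zero]
    · intro j hj
      dsimp only
      rw [dif_pos hj, hth, hK2]
  · rw [Complex.conj_conj]
    exact h5
  · rw [Complex.conj_conj]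
    rw [Pool.Agent.Helper28.Ball.eval_cj, ev_gxw] at h6
    intro h0
    apply h6
    rw [h0, map_zero]

theorem j_goodb : J_GOODB := h_goodb Pool.Agent.Helper86.DC.h_rk

end Pool.Agent.Helper66.DC
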