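import Pool.Agent.Helper66.DC.Final4
import Pool.Agent.Helper66.DC.GOODB
import Pool.Agent.Helper66.DC.Asm4
import Pool.Agent.Helper66.DC.Asm5
import Pool.Agent.Helper16.DC.DIM
import Pool.Agent.Helper70.DC.DIMC
import Pool.Agent.Helper15.DC.JW
import Pool.Agent.Helper8.DC.CNTJ
import Pool.Agent.Helper87.DC.CL
import Pool.Agent.Helper30.DC.CR

/-!
Unconditional forms of the third stage: the degree bound `(n-1) d ≤ a (N-1)` in the larger range, and the
sharp bound `(n-1) d + 1 ≤ N` for `N < C(n+2,3)`, `n ≥ 5`.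
-/

namespace Pool.Agent.Helper66.DC

open MvPolynomial Finset ComplexConjugate Pool.Agent.Helper69.DC

theorem j_dim : J_DIM := Pool.Agent.Helper16.DC.h_dim Pool.Agent.Helper70.DC.h_dimc
theorem j_jw : J_JW := Pool.Agent.Helper15.DC.h_jw j_rk
theorem j_cntj : J_CNTJ := Pool.Agent.Helper8.DC.h_cntj
theorem j_cl : J_CL := Pool.Agent.Helper87.DC.h_cl j_gs
theorem j_cr : J_CR := Pool.Agent.Helper30.DC.h_cr j_gs

/-- **Theorem C'**, in the Siegel model. -/
theorem siegelCP {m N d a : ℕ} (f : Fin (N + 1) → MvPolynomial (Fin (m + 1) ⊕ Unit) ℂ)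
    (hf' : SMap (m + 1) N d f) (hd : 1 ≤ d) (ha : 1 ≤ a)
    (hN : N < (m + 1 + a).choose (m + 1) + (m + (2 * a + 1)).choose m) :
    (m + 1) * d ≤ a * (N - 1) :=
  siegel_CP k_hf2 k_ajo h_ei h_sq h_dq h_tx h_goodw h_cntr h_j1 j_goodb j_w j_dim j_jw j_cntj f
    hf' hd ha hN

/-- **The cubic theorem**, in the Siegel model. -/
theorem siegelK3 {m N d : ℕ} (f : Fin (N + 1) → MvPolynomial (Fin m ⊕ Unit) ℂ)
    (hf' : SMap m N d f) (hm : 4 ≤ m) (hd : 1 ≤ d) (hN : N < (m + 3).choose m) : m * d + 1 ≤ N :=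
  siegel_K3 k_hf2 k_ajo h_ei h_sq h_dq h_tx h_goodw h_cntr h_pdec h_j1 j_goodb j_w j_cl j_cr
    j_cntz f hf' hm hd hN

end Pool.Agent.Helper66.DC
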